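import Pool.Agent.Lib.MP_2f3286_ag.Fc.Conj

/-!
# The component `bt c`: divisible valuations, and the prime above `p`

`bt c` is the product of the `(σ_a⁻¹ c) ^ a`. The valuation of `σ_a⁻¹ c` at `w` is the valuation of `c` at a
conjugate prime, so it is divisible by `p` if all valuations of `c` are. If `c t ^ p` is congruent to `1`
modulo `P ^ 2` then so are its conjugates, and `bt c` times the `p`-th power of the product of the
`(σ_a⁻¹ t) ^ a` is their product.
-/

set_option autoImplicit false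

open IsDedekindDomain NumberField
open scoped WithZero

namespace Pool.Agent.Lib.MP_2f3286_ag.Fc

open Pool.Agent.Lib.MP_2f3286_ag.Fer (Loc PV Plc Good)

section

variable {p : ℕ} [Fact p.Prime] {F : Type*} [Field F] [NumberField F] (X : Cyc p F)

private theorem btp_pv_one (w : HeightOneSpectrum (𝓞 F)) : PV p w (1 : F) :=
  ⟨1, one_ne_zero, by rw [map_one, one_pow]⟩

private theorem btp_pv_pow {w : HeightOneSpectrum (𝓞 F)} {c : F} (h : PV p w c) (n : ℕ) :
    PV p w (c ^ n) := by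
  induction n with
  | zero =>
    rw [pow_zero]
    exact btp_pv_one w
  | succ n ih =>
    rw [pow_succ]
    exact Pool.Agent.Lib.MP_2f3286_ag.Fer.PV.mul ih h

private theorem btp_pv_conj {c : F} (h : ∀ w : HeightOneSpectrum (𝓞 F), PV p w c) (σ : F ≃+* F)
    (w : HeightOneSpectrum (𝓞 F)) : PV p w (σ c) := by
  obtain ⟨w', hw'⟩ := exists_conj σ w
  obtain ⟨z, hz, hcz⟩ := h w'
  refine ⟨σ z, (map_ne_zero σ).2 hz, ?_⟩
  rw [hw', hw', hcz]

theorem Cyc.bt_pv {c : F} (h : ∀ w : HeightOneSpectrum (𝓞 F), PV p w c)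
    (w : HeightOneSpectrum (𝓞 F)) : PV p w (bt X.sg c) := by
  unfold bt
  refine Finset.prod_induction _ (PV p w) (fun _ _ => Pool.Agent.Lib.MP_2f3286_ag.Fer.PV.mul)
    (btp_pv_one w) (fun a _ => btp_pv_pow ?_ _)
  exact btp_pv_conj h (X.sg a⁻¹ : F ≃+* F) w

private theorem btp_cong_mul {v : Valuation F ℤᵐ⁰} {a b : F} (ha : v (a - 1) ≤ WithZero.exp (-2 : ℤ))
    (hb : v (b - 1) ≤ WithZero.exp (-2 : ℤ)) : v (a * b - 1) ≤ WithZero.exp (-2 : ℤ) := by
  have h1 : (WithZero.exp (-2 : ℤ) : ℤᵐ⁰) ≤ 1 := by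
    rw [← WithZero.exp_zero, WithZero.exp_le_exp]
    norm_num
  have hb1 : v b ≤ 1 := by
    have h2 : b = (b - 1) + 1 := by ring
    rw [h2]
    refine (v.map_add _ _).trans (max_le (hb.trans h1) ?_)
    rw [map_one]
  have h3 : a * b - 1 = (a - 1) * b + (b - 1) := by ring
  rw [h3]
  refine (v.map_add _ _).trans (max_le ?_ hb)
  rw [map_mul]
  exact (mul_le_mul' ha hb1).trans (by rw [mul_one])

private theorem btp_cong_pow {v : Valuation F ℤᵐ⁰} {a : F} (ha : v (a - 1) ≤ WithZero.exp (-2 : ℤ))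
    (n : ℕ) : v (a ^ n - 1) ≤ WithZero.exp (-2 : ℤ) := by
  induction n with
  | zero =>
    rw [pow_zero, sub_self, map_zero]
    exact zero_le'
  | succ n ih =>
    rw [pow_succ]
    exact btp_cong_mul ih ha

theorem Cyc.bt_P {c t : F} (ht : t ≠ 0)
    (h : X.P.valuation F (c * t ^ p - 1) ≤ WithZero.exp (-2 : ℤ)) :
    ∃ t' : F, t' ≠ 0 ∧ X.P.valuation F (bt X.sg c * t' ^ p - 1) ≤ WithZero.exp (-2 : ℤ) := by
  refine ⟨bt X.sg t, ?_, ?_⟩
  · unfold bt
    exact Finset.prod_ne_zero_iff.2 fun a _ => pow_ne_zero _ ((map_ne_zero (X.sg a⁻¹)).2 ht)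
  · have h1 : bt X.sg c * bt X.sg t ^ p = ∏ a : (ZMod p)ˣ, (X.sg a⁻¹ (c * t ^ p)) ^ (a : ZMod p).val := by
      unfold bt
      rw [← Finset.prod_pow, ← Finset.prod_mul_distrib]
      refine Finset.prod_congr rfl fun a _ => ?_
      rw [map_mul, map_pow, mul_pow, ← pow_mul, ← pow_mul, mul_comm p]
    rw [h1]
    refine Finset.prod_induction _ (fun y => X.P.valuation F (y - 1) ≤ WithZero.exp (-2 : ℤ))
      (fun _ _ => btp_cong_mul) ?_ (fun a _ => btp_cong_pow ?_ _)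
    · rw [sub_self, map_zero]
      exact zero_le'
    · have h2 : (X.sg a⁻¹ : F ≃ₐ[ℚ] F) (c * t ^ p) - 1 =
          ((X.sg a⁻¹ : F ≃ₐ[ℚ] F) : F ≃+* F) (c * t ^ p - 1) := by
        rw [map_sub, map_one]
        rfl
      rw [h2, X.val_P]
      exact h

end

end Pool.Agent.Lib.MP_2f3286_ag.Fc
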