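import Pool.Agent.Lib.MP_2f3286_ag.Fc.Conj

set_option autoImplicit false

open IsDedekindDomain NumberField
open scoped WithZero

namespace Pool.Agent.Lib.MP_2f3286_ag.Fc

open Pool.Agent.Lib.MP_2f3286_ag.Fer (Loc PV Plc)

section

variable {p : ℕ} [Fact p.Prime] {F : Type*} [Field F] [NumberField F] (X : Cyc p F)

private lemma btr_mul (v : Valuation F ℤᵐ⁰) {x y x' y' : F} (h : v (x - y) < 1) (hy : v y ≤ 1)
    (h' : v (x' - y') < 1) (hy' : v y' ≤ 1) : v (x * x' - y * y') < 1 := by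
  have hx' : v x' ≤ 1 := by
    have h1 : x' = (x' - y') + y' := by ring
    rw [h1]
    exact v.map_add_le h'.le hy'
  have h1 : x * x' - y * y' = (x - y) * x' + y * (x' - y') := by ring
  rw [h1]
  refine v.map_add_lt ?_ ?_
  · rw [map_mul]
    exact (mul_le_mul_right hx' _).trans_lt (by rwa [mul_one])
  · rw [map_mul]
    exact (mul_le_mul_left hy _).trans_lt (by rwa [one_mul])

private lemma btr_pow (v : Valuation F ℤᵐ⁰) {x y : F} (h : v (x - y) < 1) (hy : v y ≤ 1) (n : ℕ) :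
    v (x ^ n - y ^ n) < 1 := by
  induction n with
  | zero => simp
  | succ n ih =>
    rw [pow_succ, pow_succ]
    refine btr_mul v ih ?_ h hy
    rw [map_pow]
    exact pow_le_one₀ zero_le hy

private lemma btr_prod (v : Valuation F ℤᵐ⁰) {ι : Type*} (s : Finset ι) (x y : ι → F)
    (h : ∀ i ∈ s, v (x i - y i) < 1) (hy : ∀ i ∈ s, v (y i) ≤ 1) :
    v (∏ i ∈ s, x i - ∏ i ∈ s, y i) < 1 ∧ v (∏ i ∈ s, y i) ≤ 1 := by
  classical
  induction s using Finset.induction_on with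
  | empty => simp
  | insert a s ha ih =>
    rw [Finset.prod_insert ha, Finset.prod_insert ha]
    obtain ⟨h1, h2⟩ := ih (fun i hi => h i (Finset.mem_insert_of_mem hi))
      fun i hi => hy i (Finset.mem_insert_of_mem hi)
    refine ⟨btr_mul v (h a (Finset.mem_insert_self a s)) (hy a (Finset.mem_insert_self a s)) h1 h2,
      ?_⟩
    rw [map_mul]
    exact mul_le_one' (hy a (Finset.mem_insert_self a s)) h2

private lemma btr_nat {r : ℕ} (w : HeightOneSpectrum (𝓞 F)) :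
    (r : 𝓞 F) ∈ w.asIdeal ↔ w.valuation F (r : F) < 1 := by
  have h := HeightOneSpectrum.valuation_lt_one_iff_mem (K := F) w (r : 𝓞 F)
  have h2 : algebraMap (𝓞 F) F (r : 𝓞 F) = (r : F) := map_natCast _ r
  rw [← h2]
  exact h.symm

theorem Cyc.bt_r {r : ℕ} {c : F} {k : ℕ}
    (h : ∀ w : HeightOneSpectrum (𝓞 F), (r : 𝓞 F) ∈ w.asIdeal →
      ∃ t : F, t ≠ 0 ∧ w.valuation F (c * t ^ p - X.ζ ^ k) < 1)
    (w : HeightOneSpectrum (𝓞 F)) (hw : (r : 𝓞 F) ∈ w.asIdeal) :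
    ∃ t : F, t ≠ 0 ∧ w.valuation F (bt X.sg c * t ^ p - X.ζ ^ ((p - 1) * k)) < 1 := by
  classical
  have hp : p.Prime := Fact.out
  have hζp : X.ζ ^ p = 1 := X.hζ.pow_eq_one
  have hζ1 : w.valuation F X.ζ ≤ 1 := by
    by_contra h1
    push Not at h1
    have h2 := one_lt_pow₀ h1 hp.ne_zero
    rw [← map_pow, hζp, map_one] at h2
    exact lt_irrefl _ h2
  have hζn : ∀ n : ℕ, w.valuation F (X.ζ ^ n) ≤ 1 := by
    intro n
    rw [map_pow]
    exact pow_le_one₀ zero_le hζ1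
  -- the elements at the conjugate primes
  have key : ∀ a : (ZMod p)ˣ, ∃ t : F, t ≠ 0 ∧
      w.valuation F ((X.sg a⁻¹ c * X.sg a⁻¹ t ^ p) ^ (a : ZMod p).val - X.ζ ^ k) < 1 := by
    intro a
    obtain ⟨w', hw'⟩ := exists_conj (X.sg a⁻¹ : F ≃ₐ[ℚ] F).toRingEquiv w
    have hw'' : ∀ x : F, w.valuation F (X.sg a⁻¹ x) = w'.valuation F x := hw'
    have hr : (r : 𝓞 F) ∈ w'.asIdeal := by
      rw [btr_nat, ← hw'', map_natCast]
      exact (btr_nat w).1 hw
    obtain ⟨t, ht, ht'⟩ := h w' hr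
    refine ⟨t, ht, ?_⟩
    rw [← hw'', map_sub, map_mul, map_pow, map_pow, X.hsg a⁻¹] at ht'
    have h1 := btr_pow (w.valuation F) ht' (by rw [← pow_mul]; exact hζn _) (a : ZMod p).val
    have h2 : (((((a⁻¹ : (ZMod p)ˣ) : ZMod p).val * (a : ZMod p).val : ℕ) : ℕ) : ZMod p) =
        ((1 : ℕ) : ZMod p) := by
      rw [Nat.cast_mul, ZMod.natCast_zmod_val, ZMod.natCast_zmod_val, Units.inv_mul, Nat.cast_one]
    have h3 := (ZMod.natCast_eq_natCast_iff _ _ _).1 h2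
    have h4 : ((X.ζ ^ ((a⁻¹ : (ZMod p)ˣ) : ZMod p).val) ^ k) ^ (a : ZMod p).val = X.ζ ^ k := by
      calc ((X.ζ ^ ((a⁻¹ : (ZMod p)ˣ) : ZMod p).val) ^ k) ^ (a : ZMod p).val
          = (X.ζ ^ (((a⁻¹ : (ZMod p)ˣ) : ZMod p).val * (a : ZMod p).val)) ^ k := by
            rw [← pow_mul, ← pow_mul, ← pow_mul]
            congr 1
            ring
        _ = (X.ζ ^ 1) ^ k := by rw [pow_eq_pow_of_modEq h3 hζp]
        _ = X.ζ ^ k := by rw [pow_one]
    rw [h4] at h1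
    exact h1
  choose t ht ht' using key
  refine ⟨∏ a : (ZMod p)ˣ, X.sg a⁻¹ (t a) ^ (a : ZMod p).val, ?_, ?_⟩
  · refine Finset.prod_ne_zero_iff.2 fun a _ => pow_ne_zero _ ?_
    exact (map_ne_zero (X.sg a⁻¹)).2 (ht a)
  · have h1 := (btr_prod (w.valuation F) Finset.univ
      (fun a : (ZMod p)ˣ => (X.sg a⁻¹ c * X.sg a⁻¹ (t a) ^ p) ^ (a : ZMod p).val)
      (fun _ => X.ζ ^ k) (fun a _ => ht' a) fun _ _ => hζn k).1
    have h2 : ∏ a : (ZMod p)ˣ, (X.sg a⁻¹ c * X.sg a⁻¹ (t a) ^ p) ^ (a : ZMod p).val =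
        bt X.sg c * (∏ a : (ZMod p)ˣ, X.sg a⁻¹ (t a) ^ (a : ZMod p).val) ^ p := by
      unfold bt
      rw [← Finset.prod_pow, ← Finset.prod_mul_distrib]
      refine Finset.prod_congr rfl fun a _ => ?_
      rw [mul_pow, ← pow_mul, ← pow_mul, mul_comm p]
    have h3 : ∏ _a : (ZMod p)ˣ, X.ζ ^ k = X.ζ ^ ((p - 1) * k) := by
      rw [Finset.prod_const, Finset.card_univ, ZMod.card_units_eq_totient,
        Nat.totient_prime hp, ← pow_mul, mul_comm k]
    rw [h2, h3] at h1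
    exact h1

end

end Pool.Agent.Lib.MP_2f3286_ag.Fc
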