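import Pool.Agent.Lib.MP_2f3286_ag.Fc.Defs

/-!
# Conj: the automorphisms of a number field permute the valuations of the primes
-/

set_option autoImplicit false

open IsDedekindDomain NumberField
open scoped WithZero

namespace Pool.Agent.Lib.MP_2f3286_ag.Fc

open Pool.Agent.Lib.MP_2f3286_ag.Fer (Loc)

/-- The conjugate prime. -/
private theorem conj_int {F : Type*} [Field F] [NumberField F] (e : 𝓞 F ≃+* 𝓞 F)
    (w w' : HeightOneSpectrum (𝓞 F)) (h : w'.asIdeal = w.asIdeal.comap e) (r : 𝓞 F) :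
    w.intValuation (e r) = w'.intValuation r := by
  have hmem : ∀ n : ℕ, e r ∈ w.asIdeal ^ n ↔ r ∈ w'.asIdeal ^ n := by
    intro n
    have h1 : w'.asIdeal = w.asIdeal.map e.symm := by
      rw [h]
      exact (Ideal.map_symm e).symm
    rw [h1, ← Ideal.map_pow]
    have h2 : (w.asIdeal ^ n).map e.symm = (w.asIdeal ^ n).comap e := Ideal.map_symm e
    rw [h2, Ideal.mem_comap]
  by_cases hr : r = 0
  · rw [hr, map_zero, map_zero, map_zero]
  have her : e r ≠ 0 := by
    intro h0
    exact hr ((map_eq_zero_iff e e.injective).1 h0)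
  have key : ∀ n : ℕ, w.intValuation (e r) ≤ WithZero.exp (-(n : ℤ)) ↔
      w'.intValuation r ≤ WithZero.exp (-(n : ℤ)) := by
    intro n
    rw [w.intValuation_le_pow_iff_mem, w'.intValuation_le_pow_iff_mem]
    exact hmem n
  apply le_antisymm
  · have h1 := (key _).2 (le_of_eq (w'.intValuation_if_neg hr))
    rw [w'.intValuation_if_neg hr]
    exact h1
  · have h1 := (key _).1 (le_of_eq (w.intValuation_if_neg her))
    rw [w.intValuation_if_neg her]
    exact h1

theorem exists_conj {F : Type*} [Field F] [NumberField F] (σ : F ≃+* F)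
    (w : HeightOneSpectrum (𝓞 F)) :
    ∃ w' : HeightOneSpectrum (𝓞 F), ∀ x : F, w.valuation F (σ x) = w'.valuation F x := by
  obtain ⟨e, he⟩ : ∃ e : 𝓞 F ≃+* 𝓞 F, e = RingOfIntegers.mapRingEquiv σ := ⟨_, rfl⟩
  have hσ : ∀ r : 𝓞 F, σ (algebraMap (𝓞 F) F r) = algebraMap (𝓞 F) F (e r) := by
    intro r
    rw [he]
    rfl
  have hwp := w.isPrime
  have hprime : (w.asIdeal.comap e).IsPrime := Ideal.comap_isPrime e w.asIdeal
  have hbot : w.asIdeal.comap e ≠ ⊥ := by
    intro h0
    apply w.ne_bot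
    rw [eq_bot_iff]
    intro x hx
    have h1 : e.symm x ∈ w.asIdeal.comap e := by
      rw [Ideal.mem_comap, e.apply_symm_apply]
      exact hx
    rw [h0, Ideal.mem_bot] at h1
    rw [Ideal.mem_bot]
    exact (map_eq_zero_iff e.symm e.symm.injective).1 h1
  obtain ⟨w', hw'⟩ : ∃ w' : HeightOneSpectrum (𝓞 F), w'.asIdeal = w.asIdeal.comap e :=
    ⟨⟨_, hprime, hbot⟩, rfl⟩
  refine ⟨w', ?_⟩
  intro x
  obtain ⟨a, b, hb, rfl⟩ := IsFractionRing.div_surjective (A := 𝓞 F) x
  rw [map_div₀ σ, map_div₀, map_div₀, hσ, hσ, HeightOneSpectrum.valuation_of_algebraMap,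
    HeightOneSpectrum.valuation_of_algebraMap, HeightOneSpectrum.valuation_of_algebraMap,
    HeightOneSpectrum.valuation_of_algebraMap, conj_int e w w' hw' a, conj_int e w w' hw' b]

variable {p : ℕ} [Fact p.Prime] {F : Type*} [Field F] [NumberField F] (X : Cyc p F)

theorem Cyc.val_P (σ : F ≃+* F) (x : F) : X.P.valuation F (σ x) = X.P.valuation F x := by
  obtain ⟨w', hw'⟩ := exists_conj σ X.P
  have h1 : w' = X.P := by
    by_contra hne
    have h2 := X.away w' hne
    have h3 : X.P.valuation F ((p : ℕ) : F) < 1 := by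
      have h4 : ((p : ℕ) : F) = algebraMap (𝓞 F) F ((p : ℕ) : 𝓞 F) := by rw [map_natCast]
      rw [h4, HeightOneSpectrum.valuation_of_algebraMap, X.P.intValuation_lt_one_iff_mem]
      exact X.hpP
    have h5 := hw' ((p : ℕ) : F)
    rw [map_natCast] at h5
    rw [h5] at h3
    have h4 : ((p : ℕ) : F) = algebraMap (𝓞 F) F ((p : ℕ) : 𝓞 F) := by rw [map_natCast]
    rw [h4, HeightOneSpectrum.valuation_of_algebraMap, w'.intValuation_lt_one_iff_mem] at h3
    exact h2 h3
  rw [hw' x, h1]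

end Pool.Agent.Lib.MP_2f3286_ag.Fc
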