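import Pool.Agent.Lib.MP_2f3286_ag.Fc.Defs
import Pool.Agent.Lib.MP_2f3286_ag.Fer.CycL
import Pool.Agent.Lib.MP_2f3286_ag.Fer.CycP
import Mathlib.NumberTheory.NumberField.Cyclotomic.Galois

set_option autoImplicit false

open IsDedekindDomain NumberField
open scoped WithZero

namespace Pool.Agent.Lib.MP_2f3286_ag.Fc

open Pool.Agent.Lib.MP_2f3286_ag.Fer (Loc)

theorem exists_cyc (p : ℕ) [Fact p.Prime] (h2 : p ≠ 2) (F : Type*) [Field F] [NumberField F]
    [IsCyclotomicExtension {p} ℚ F] : Nonempty (Cyc p F) := by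
  have hp : p.Prime := Fact.out
  have : NeZero p := ⟨hp.ne_zero⟩
  have hζ := IsCyclotomicExtension.zeta_spec p ℚ F
  obtain ⟨P, ⟨x, hx, hP⟩, hpP, -, haway⟩ := Fer.exists_prime hp hζ
  refine ⟨⟨IsCyclotomicExtension.zeta p ℚ F, hζ, h2, inferInstance, P, haway, hpP,
    Fer.cyc_loc hp h2 hζ hx hP, (IsCyclotomicExtension.Rat.galEquivZMod p F).symm, ?_⟩⟩
  intro a
  have h := IsCyclotomicExtension.Rat.galEquivZMod_apply_of_pow_eq p F
    ((IsCyclotomicExtension.Rat.galEquivZMod p F).symm a) hζ.pow_eq_one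
  rw [MulEquiv.apply_symm_apply] at h
  exact h

variable {p : ℕ} [Fact p.Prime] {F : Type*} [Field F] [NumberField F] (X : Cyc p F)

include X in
theorem Cyc.locF : Loc p (X.P.valuation F) X.ζ := by
  have h := X.loc
  refine ⟨X.hζ.pow_eq_one, ?_, ?_, ?_, ?_⟩
  · rw [← Fer.val_alg', map_sub, map_one]
    exact h.val_pi
  · rw [← Fer.val_alg', map_natCast]
    exact h.val_p
  · rw [← Fer.val_alg', map_add, map_natCast, map_pow, map_sub, map_one]
    exact h.sharp
  · intro x hx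
    obtain ⟨n, hn⟩ := h.resid (algebraMap F (X.P.adicCompletion F) x) (by
      rw [Fer.val_alg']
      exact hx)
    refine ⟨n, ?_⟩
    rw [← Fer.val_alg', map_sub, map_natCast]
    exact hn

end Pool.Agent.Lib.MP_2f3286_ag.Fc
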