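import Pool.Agent.Lib.MP_2f3286_ag.Fer.Away
import Pool.Agent.Lib.MP_2f3286_ag.Fer.LRoot

/-!
# The first case of Fermat's theorem for sections: the definitions
-/

set_option autoImplicit false

open IsDedekindDomain NumberField
open scoped WithZero

namespace Pool.Agent.Lib.MP_2f3286_ag.Fc

open Pool.Agent.Lib.MP_2f3286_ag.Fer (Loc Plc)

/-- The `p`-th cyclotomic field `F` with its Galois group and its prime above `p`, `p` odd. -/
structure Cyc (p : ℕ) [Fact p.Prime] (F : Type*) [Field F] [NumberField F] where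
  /-- a primitive `p`-th root of unity -/
  ζ : F
  hζ : IsPrimitiveRoot ζ p
  h2 : p ≠ 2
  cyc : IsCyclotomicExtension {p} ℚ F
  /-- the prime above `p` -/
  P : HeightOneSpectrum (𝓞 F)
  away : ∀ w : HeightOneSpectrum (𝓞 F), w ≠ P → (p : 𝓞 F) ∉ w.asIdeal
  hpP : (p : 𝓞 F) ∈ P.asIdeal
  loc : Loc p (Valued.v : Valuation (P.adicCompletion F) ℤᵐ⁰)
    (algebraMap F (P.adicCompletion F) ζ)
  /-- the Galois group -/
  sg : (ZMod p)ˣ ≃* Gal(F/ℚ)
  hsg : ∀ a, sg a ζ = ζ ^ (a : ZMod p).val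

/-- The product of the `(σ_a⁻¹ c) ^ a`, where `σ_a = sg a`, over the classes `a` prime to `p`: the
component of `c` on which the Galois group acts like on the `p`-th roots of unity. -/
noncomputable def bt {p : ℕ} [Fact p.Prime] {F : Type*} [Field F] [NumberField F]
    (sg : (ZMod p)ˣ ≃* Gal(F/ℚ)) (c : F) : F :=
  ∏ a : (ZMod p)ˣ, (sg a⁻¹ c) ^ (a : ZMod p).val

/-- The Galois group acts on `β`, up to `p`-th powers, like on the `p`-th roots of unity. -/
def Eig {p : ℕ} [Fact p.Prime] {F : Type*} [Field F] [NumberField F]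
    (sg : (ZMod p)ˣ ≃* Gal(F/ℚ)) (β : F) : Prop :=
  ∀ b : (ZMod p)ˣ, ∃ d : F, d ≠ 0 ∧ sg b β = β ^ (b : ZMod p).val * d ^ p

/-- At every prime of `F` above `r` there is a place of `L`, the identity on `F`, at which `r₀` has a
value congruent to `a`. -/
def Rc (r : ℕ) (F : Type*) [Field F] [NumberField F] {L : Type*} [Field L] [Algebra F L] (r₀ : L)
    (a : ℤ) : Prop :=
  ∀ w : HeightOneSpectrum (𝓞 F), (r : 𝓞 F) ∈ w.asIdeal → ∃ Q : Plc L (w.adicCompletion F),
    (∀ a : F, Q.Has (algebraMap F L a) (algebraMap F (w.adicCompletion F) a)) ∧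
    ∃ ρ : w.adicCompletion F, Q.Has r₀ ρ ∧ Valued.v (ρ - a) < (1 : ℤᵐ⁰)

end Pool.Agent.Lib.MP_2f3286_ag.Fc
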