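import Pool.Agent.Lib.MP_2f3286_ag.Fc.Defs

/-!
# The first case of Fermat's theorem for sections: the eigencomponent
-/

set_option autoImplicit false

open IsDedekindDomain NumberField
open scoped WithZero

namespace Pool.Agent.Lib.MP_2f3286_ag.Fc

section

variable {p : ℕ} [Fact p.Prime] {F : Type*} [Field F] [NumberField F] (X : Cyc p F)

theorem Cyc.bt_eigen {c : F} (hc : c ≠ 0) : bt X.sg c ≠ 0 ∧ Eig X.sg (bt X.sg c) := by
  have hne : ∀ a : (ZMod p)ˣ, X.sg a c ≠ 0 := fun a h => hc ((map_eq_zero (X.sg a)).1 h)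
  refine ⟨?_, fun b => ?_⟩
  · unfold bt
    exact Finset.prod_ne_zero_iff.2 fun a _ => pow_ne_zero _ (hne _)
  · refine ⟨∏ a : (ZMod p)ˣ, ((X.sg a⁻¹ c) ^
      ((b : ZMod p).val * (a : ZMod p).val / p))⁻¹, ?_, ?_⟩
    · exact Finset.prod_ne_zero_iff.2 fun a _ => inv_ne_zero (pow_ne_zero _ (hne _))
    · have h1 : X.sg b (bt X.sg c) =
          ∏ a : (ZMod p)ˣ, (X.sg (b * a⁻¹) c) ^ (a : ZMod p).val := by
        unfold bt
        rw [map_prod]
        refine Finset.prod_congr rfl fun a _ => ?_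
        rw [map_pow, map_mul]
        rfl
      have h2 : ∏ a : (ZMod p)ˣ, (X.sg (b * a⁻¹) c) ^ (a : ZMod p).val =
          ∏ a : (ZMod p)ˣ, (X.sg a⁻¹ c) ^ ((b * a : (ZMod p)ˣ) : ZMod p).val := by
        rw [← Equiv.prod_comp (Equiv.mulLeft b)]
        refine Finset.prod_congr rfl fun a _ => ?_
        have : b * (Equiv.mulLeft b a)⁻¹ = a⁻¹ := by
          rw [Equiv.coe_mulLeft, mul_inv, mul_inv_cancel_left]
        rw [this]
        rfl
      rw [h1, h2]
      unfold bt
      rw [← Finset.prod_pow, ← Finset.prod_pow, ← Finset.prod_mul_distrib]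
      refine Finset.prod_congr rfl fun a _ => ?_
      have hv : ((b * a : (ZMod p)ˣ) : ZMod p).val =
          (b : ZMod p).val * (a : ZMod p).val % p := by
        rw [Units.val_mul, ZMod.val_mul]
      have hd := Nat.mod_add_div ((b : ZMod p).val * (a : ZMod p).val) p
      rw [hv, inv_pow, ← pow_mul, ← pow_mul, mul_comm (a : ZMod p).val,
        eq_mul_inv_iff_mul_eq₀ (pow_ne_zero _ (hne _)), ← pow_add,
        mul_comm ((b : ZMod p).val * (a : ZMod p).val / p) p, hd]

end

end Pool.Agent.Lib.MP_2f3286_ag.Fc
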