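import Pool.Agent.Lib.MP_2f3286_ag.Fer.LBas

/-!
# The exponent of the class at the prime above `p`
-/

set_option autoImplicit false

open scoped WithZero

namespace Pool.Agent.Lib.MP_2f3286_ag.Fc

open Pool.Agent.Lib.MP_2f3286_ag.Fer

theorem exM_geom {p : ℕ} {C : Type*} [Field C] {v : Valuation C ℤᵐ⁰}
    {z : C} (h : Loc p v z) (m : ℕ) :
    v (z ^ m - 1 - m * (z - 1)) ≤ WithZero.exp (-2 : ℤ) := by
  have h1 : z ^ m - 1 - m * (z - 1) = (z - 1) * ∑ i ∈ Finset.range m, (z ^ i - 1) := by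
    rw [← mul_geom_sum, Finset.sum_sub_distrib, Finset.sum_const, Finset.card_range,
      nsmul_eq_mul, mul_one]
    ring
  have h2 : v (∑ i ∈ Finset.range m, (z ^ i - 1)) ≤ WithZero.exp (-1 : ℤ) :=
    v.map_sum_le fun i _ => h.zpow_sub_one_le i
  rw [h1, map_mul, h.val_pi]
  refine (mul_le_mul' le_rfl h2).trans ?_
  rw [← WithZero.exp_add]
  norm_num

theorem exM_inv {p : ℕ} (hp : p.Prime) {C : Type*} [Field C] {v : Valuation C ℤᵐ⁰}
    {z : C} (h : Loc p v z) :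
    v (z ^ (p - 1) - 1 + (z - 1)) ≤ WithZero.exp (-2 : ℤ) := by
  have h0 : z ^ (p - 1) * z = 1 := by
    rw [← pow_succ, Nat.sub_add_cancel hp.one_lt.le, h.root]
  have h1 : z ^ (p - 1) - 1 + (z - 1) = z ^ (p - 1) * (z - 1) ^ 2 := by
    linear_combination (-z + 2) * h0
  rw [h1, map_mul, h.val_z, one_mul, map_pow, h.val_pi, ← WithZero.exp_nsmul]
  norm_num

theorem exists_m {p : ℕ} (hp : p.Prime) (h2 : p ≠ 2) {C : Type*} [Field C] {v : Valuation C ℤᵐ⁰}
    {z : C} (h : Loc p v z) {ρ : C} (h1 : v ρ = 1) (h1' : v (ρ + 1) = 1) :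
    ∃ m : ℕ, v (ρ + z - z ^ m * (ρ + z ^ (p - 1))) ≤ WithZero.exp (-2 : ℤ) ∧
      ¬ m ≡ 0 [MOD p] ∧ ¬ m ≡ 2 [MOD p] ∧ (v (ρ - 1) = 1 → ¬ m ≡ 1 [MOD p]) := by
  have hv2 : v (2 : C) = 1 := by
    have h3 := h.int_eq_one hp (n := 2) fun hd => h2 ?_
    · exact_mod_cast h3
    · have h4 : p ∣ 2 := by exact_mod_cast hd
      exact (Nat.prime_dvd_prime_iff_eq hp Nat.prime_two).mp h4
  have hne : ρ + 1 ≠ 0 := by
    intro h0
    rw [h0, map_zero] at h1'
    exact zero_ne_one h1'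
  have hy : v (2 / (ρ + 1)) ≤ 1 := by
    rw [map_div₀, hv2, h1', div_one]
  obtain ⟨m, hm⟩ := h.resid _ hy
  have hm' : v ((m : C) * (ρ + 1) - 2) ≤ WithZero.exp (-1 : ℤ) := by
    have h3 : (m : C) * (ρ + 1) - 2 = -((2 / (ρ + 1) - m) * (ρ + 1)) := by
      field_simp
      ring
    rw [h3, Valuation.map_neg, map_mul, h1', mul_one]
    exact hm
  have hm1 : v ((m : C) * (ρ + 1) - 2) < 1 := lt_one_iff.mpr hm'
  have hmod : ∀ c : ℕ, m ≡ c [MOD p] → v ((m : C) - c) < 1 := by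
    intro c hc
    have h3 : (p : ℤ) ∣ (m : ℤ) - c := (Nat.modEq_iff_dvd.mp hc.symm)
    have h4 := (h.int_lt hp ((m : ℤ) - c)).mpr h3
    rw [Int.cast_sub, Int.cast_natCast, Int.cast_natCast] at h4
    exact h4
  have hcontra : ∀ (c : ℕ) (t : C), m ≡ c [MOD p] → v t = 1 →
      t = ((m : C) * (ρ + 1) - 2) - ((m : C) - c) * (ρ + 1) → False := by
    intro c t hc ht hteq
    have h3 : v t < 1 := by
      rw [hteq]
      refine v.map_sub_lt hm1 ?_
      rw [map_mul, h1', mul_one]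
      exact hmod c hc
    rw [ht] at h3
    exact lt_irrefl _ h3
  refine ⟨m, ?_, ?_, ?_, ?_⟩
  · have hid : ρ + z - z ^ m * (ρ + z ^ (p - 1)) =
        -((z - 1) * ((m : C) * (ρ + 1) - 2)) + m * (z - 1) ^ 2
          - (z ^ (p - 1) - 1 + (z - 1)) * (1 + m * (z - 1))
          - (z ^ m - 1 - m * (z - 1)) * (ρ + z ^ (p - 1)) := by
      ring
    have hz1 : v (z - 1) ≤ 1 := by
      rw [h.val_pi, ← WithZero.exp_zero (M := ℤ), WithZero.exp_le_exp]
      norm_num
    have hmle : v (m : C) ≤ 1 := by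
      have := int_le v (m : ℤ)
      rwa [Int.cast_natCast] at this
    rw [hid]
    refine v.map_sub_le (v.map_sub_le (v.map_add_le ?_ ?_) ?_) ?_
    · rw [Valuation.map_neg, map_mul, h.val_pi]
      refine (mul_le_mul' le_rfl hm').trans ?_
      rw [← WithZero.exp_add]
      norm_num
    · rw [map_mul, map_pow, h.val_pi, ← WithZero.exp_nsmul]
      refine (mul_le_mul' hmle le_rfl).trans ?_
      rw [one_mul]
      norm_num
    · rw [map_mul]
      refine (mul_le_mul' (exM_inv hp h) (v.map_add_le (map_one v).le ?_)).trans ?_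
      · rw [map_mul]
        exact mul_le_one' hmle hz1
      · exact (mul_one _).le
    · rw [map_mul]
      refine (mul_le_mul' (exM_geom h m) (v.map_add_le h1.le (h.val_z _).le)).trans ?_
      exact (mul_one _).le
  · intro hc
    refine hcontra 0 (-2) hc (by rw [Valuation.map_neg, hv2]) ?_
    push_cast
    ring
  · intro hc
    refine hcontra 2 (2 * ρ) hc (by rw [map_mul, hv2, h1, one_mul]) ?_
    push_cast
    ring
  · intro hρ hc
    refine hcontra 1 (ρ - 1) hc hρ ?_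
    push_cast
    ring

end Pool.Agent.Lib.MP_2f3286_ag.Fc
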