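import Pool.Agent.Lib.MP_2f3286_ag.Local
import Pool.Agent.Lib.MP_2f3286_ag.Fc.Defs

/-!
# From the completion to the field
-/

set_option autoImplicit false

open IsDedekindDomain NumberField
open scoped WithZero

namespace Pool.Agent.Lib.MP_2f3286_ag.Fc

theorem to_F {F : Type*} [Field F] [NumberField F] (w : HeightOneSpectrum (𝓞 F)) {p : ℕ} {c : F}
    {γ : w.adicCompletion F} (hγ : γ ≠ 0) {a : F} {n : ℤ}
    (h : Valued.v (algebraMap F (w.adicCompletion F) c * γ ^ p -
      algebraMap F (w.adicCompletion F) a) ≤ WithZero.exp n) :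
    ∃ t : F, t ≠ 0 ∧ w.valuation F (c * t ^ p - a) ≤ WithZero.exp n := by
  have hvγ : Valued.v γ ≠ (0 : ℤᵐ⁰) := (Valuation.ne_zero_iff _).mpr hγ
  obtain ⟨g, hg⟩ : ∃ g : ℤ, Valued.v γ = WithZero.exp g :=
    ⟨WithZero.log (Valued.v γ), (WithZero.exp_log hvγ).symm⟩
  obtain ⟨k, hk⟩ : ∃ k : ℤ, Valued.v (algebraMap F (w.adicCompletion F) c * γ ^ p) ≤
      WithZero.exp k := by
    by_cases h0 : Valued.v (algebraMap F (w.adicCompletion F) c * γ ^ p) = (0 : ℤᵐ⁰)
    · exact ⟨0, by rw [h0]; exact zero_le'⟩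
    · exact ⟨WithZero.log _, (WithZero.exp_log h0).symm.le⟩
  obtain ⟨m, hm1, hm2⟩ : ∃ m : ℤ, 1 ≤ m ∧ k - n ≤ m :=
    ⟨max 1 (k - n), le_max_left _ _, le_max_right _ _⟩
  obtain ⟨t, ht⟩ := MP_2f3286_ag.exists_approx w γ (m - g).toNat
  obtain ⟨tt, htt⟩ : ∃ tt : w.adicCompletion F, tt = algebraMap F (w.adicCompletion F) t :=
    ⟨_, rfl⟩
  rw [← htt] at ht
  have hd1 : Valued.v (tt - γ) ≤ WithZero.exp (g - m) := by
    rw [← Valuation.map_neg, neg_sub]
    refine ht.trans ?_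
    rw [WithZero.exp_le_exp]
    omega
  have hu : Valued.v (tt / γ - 1) ≤ WithZero.exp (-m) := by
    have h1 : tt / γ - 1 = (tt - γ) / γ := by field_simp
    rw [h1, map_div₀, hg, div_le_iff₀ (WithZero.exp_pos), ← WithZero.exp_add]
    refine hd1.trans ?_
    rw [WithZero.exp_le_exp]
    linarith
  have hlt : WithZero.exp (-m) < (1 : ℤᵐ⁰) := by
    rw [← WithZero.exp_zero, WithZero.exp_lt_exp]
    linarith
  have hu1 : Valued.v (tt / γ) = (1 : ℤᵐ⁰) := by
    have h1 : tt / γ = 1 + (tt / γ - 1) := by ring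
    rw [h1, Valuation.map_add_eq_of_lt_left, map_one]
    rw [map_one]
    exact lt_of_le_of_lt hu hlt
  refine ⟨t, ?_, ?_⟩
  · rintro rfl
    rw [htt, map_zero, zero_div, map_zero] at hu1
    exact zero_ne_one hu1
  · rw [← MP_2f3286_ag.val_alg w]
    have h1 : algebraMap F (w.adicCompletion F) (c * t ^ p - a) =
        (algebraMap F (w.adicCompletion F) c * γ ^ p) * ((tt / γ) ^ p - 1 ^ p) +
          (algebraMap F (w.adicCompletion F) c * γ ^ p - algebraMap F (w.adicCompletion F) a) := by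
      rw [map_sub, map_mul, map_pow, ← htt, div_pow, one_pow]
      have h2 : γ ^ p ≠ 0 := pow_ne_zero _ hγ
      field_simp
      ring
    rw [h1]
    refine (Valuation.map_add _ _ _).trans (max_le ?_ h)
    rw [map_mul]
    have h3 := MP_2f3286_ag.val_pow_sub_pow_le (Valued.v : Valuation (w.adicCompletion F) ℤᵐ⁰)
      hu1.le (map_one _).le p
    calc Valued.v (algebraMap F (w.adicCompletion F) c * γ ^ p) *
          Valued.v ((tt / γ) ^ p - 1 ^ p) ≤ WithZero.exp k * WithZero.exp (-m) :=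
        mul_le_mul' hk (h3.trans hu)
      _ ≤ WithZero.exp n := by
        rw [← WithZero.exp_add, WithZero.exp_le_exp]
        linarith

end Pool.Agent.Lib.MP_2f3286_ag.Fc
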