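import Pool.Agent.Lib.MP_2f3286_ag.Fc.CycE
import Pool.Agent.Lib.MP_2f3286_ag.Fc.Conj

/-!
# The level of an element of the component of the `p`-th roots of unity
-/

set_option autoImplicit false

open IsDedekindDomain NumberField
open scoped WithZero

namespace Pool.Agent.Lib.MP_2f3286_ag.Fc

open Pool.Agent.Lib.MP_2f3286_ag.Fer (Loc lt_one_iff int_le)

section Core

variable {p : ℕ} {C : Type*} [Field C] {v : Valuation C ℤᵐ⁰} {z : C}

private theorem Lev_one {a : C} (ha : v (a - 1) < 1) : v a = 1 := by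
  have h2 : v (a - 1) < v (1 : C) := by rw [map_one]; exact ha
  have h3 := v.map_add_eq_of_lt_right h2
  rw [sub_add_cancel, map_one] at h3
  exact h3

private theorem Lev_mul {a a' b b' : C} (ha : v (a - a') < 1) (hb : v (b - b') < 1)
    (ha1 : v a' ≤ 1) (hb1 : v b ≤ 1) : v (a * b - a' * b') < 1 := by
  have h1 : a * b - a' * b' = b * (a - a') + a' * (b - b') := by ring
  rw [h1]
  refine v.map_add_lt ?_ ?_
  · rw [map_mul]
    exact Fer.LBas_mul_lt hb1 ha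
  · rw [map_mul]
    exact Fer.LBas_mul_lt ha1 hb

private theorem Lev_pow {a a' : C} (ha : v (a - a') < 1) (ha1 : v a ≤ 1) (ha1' : v a' ≤ 1)
    (n : ℕ) : v (a ^ n - a' ^ n) < 1 := by
  induction n with
  | zero => rw [pow_zero, pow_zero, sub_self, map_zero]; exact zero_lt_one
  | succ n ih =>
    rw [pow_succ, pow_succ]
    refine Lev_mul ih ha ?_ ha1
    rw [map_pow]
    exact pow_le_one' ha1' n

private theorem Lev_geom {a : C} (ha : v (a - 1) < 1) (b : ℕ) :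
    v ((∑ i ∈ Finset.range b, a ^ i) - (b : C)) < 1 := by
  have h1 : (∑ i ∈ Finset.range b, a ^ i) - (b : C) = ∑ i ∈ Finset.range b, (a ^ i - 1) := by
    rw [Finset.sum_sub_distrib, Finset.sum_const, Finset.card_range, nsmul_eq_mul, mul_one]
  rw [h1]
  refine v.map_sum_lt one_ne_zero fun i _ => ?_
  have h2 := Lev_pow (v := v) (a := a) (a' := 1) ha (Lev_one ha).le (map_one v).le i
  rwa [one_pow] at h2

private theorem Lev_core (hp : p.Prime) (h : Loc p v z) (σ : C →+* C)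
    (hσ : ∀ x, v (σ x) = v x) {b : ℕ} (hz : σ z = z ^ b) {j : ℕ} (hj : 1 ≤ j)
    {β d : C} (hβ : v (β - 1) = WithZero.exp (-(j : ℤ))) (hd : σ β = β ^ b * d ^ p)
    (hb : ¬ (p : ℤ) ∣ (b : ℤ) ^ j - b) : v (d ^ p - 1) = WithZero.exp (-(j : ℤ)) := by
  have hπ0 : z - 1 ≠ 0 := by
    intro h0
    have h1 := h.val_pi
    rw [h0, map_zero] at h1
    exact WithZero.exp_ne_zero h1.symm
  have hπj : (z - 1) ^ j ≠ 0 := pow_ne_zero _ hπ0
  have hvj : v ((z - 1) ^ j) = WithZero.exp (-(j : ℤ)) := by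
    rw [map_pow, h.val_pi, ← WithZero.exp_nsmul]
    congr 1
    simp
  obtain ⟨τ, hτ⟩ : ∃ τ, β - 1 = (z - 1) ^ j * τ := ⟨(β - 1) / (z - 1) ^ j, by field_simp⟩
  have hτ1 : v τ = 1 := by
    have h1 := hβ
    rw [hτ, map_mul, hvj] at h1
    exact mul_left_cancel₀ WithZero.exp_ne_zero (h1.trans (mul_one _).symm)
  obtain ⟨n, hn⟩ := h.resid τ hτ1.le
  rw [← lt_one_iff] at hn
  have hn1 : v ((n : ℤ) : C) = 1 := by
    have h1 : v (τ - n) < v τ := by rw [hτ1]; exact hn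
    have h2 := v.map_sub_eq_of_lt_right h1
    rw [hτ1, sub_sub_cancel_left, Valuation.map_neg] at h2
    rw [Int.cast_natCast]
    exact h2
  have hnp : ¬ (p : ℤ) ∣ (n : ℤ) := by
    intro hd
    have h1 := (h.int_lt hp (n : ℤ)).mpr hd
    rw [hn1] at h1
    exact lt_irrefl _ h1
  have hz1 : v (z - 1) < 1 := by rw [h.val_pi, lt_one_iff]
  have hβ1 : v (β - 1) < 1 := by
    rw [hβ, lt_one_iff, WithZero.exp_le_exp]
    omega
  have hbv : v (b : C) ≤ 1 := by
    have h1 := int_le v (b : ℤ)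
    rwa [Int.cast_natCast] at h1
  have hnv : v (n : C) ≤ 1 := by
    have h1 := int_le v (n : ℤ)
    rwa [Int.cast_natCast] at h1
  -- the conjugate
  obtain ⟨u, hu⟩ : ∃ u, u = ∑ i ∈ Finset.range b, z ^ i := ⟨_, rfl⟩
  have hub : v (u - b) < 1 := by rw [hu]; exact Lev_geom hz1 b
  have hu1 : v u ≤ 1 := by
    rw [hu]
    exact v.map_sum_le fun i _ => (h.val_z i).le
  have h1 : σ β - 1 = (z - 1) ^ j * (u ^ j * σ τ) := by
    have h2 : σ (β - 1) = σ β - 1 := by rw [map_sub, map_one]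
    have h3 : σ (z - 1) = (z - 1) * u := by rw [map_sub, map_one, hz, hu, mul_geom_sum]
    rw [← h2, hτ, map_mul, map_pow, h3, mul_pow, mul_assoc]
  -- the power
  obtain ⟨s, hs⟩ : ∃ s, s = ∑ i ∈ Finset.range b, β ^ i := ⟨_, rfl⟩
  have hsb : v (s - b) < 1 := by rw [hs]; exact Lev_geom hβ1 b
  have h2 : β ^ b - 1 = (z - 1) ^ j * (τ * s) := by
    rw [← mul_geom_sum, ← hs, hτ, mul_assoc]
  have h3 : β ^ b * (d ^ p - 1) = (z - 1) ^ j * (u ^ j * σ τ - τ * s) := by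
    have h4 : β ^ b * (d ^ p - 1) = (σ β - 1) - (β ^ b - 1) := by rw [hd]; ring
    rw [h4, h1, h2]
    ring
  have h4 : v (u ^ j * σ τ - (b : C) ^ j * n) < 1 := by
    refine Lev_mul (Lev_pow hub hu1 hbv j) ?_ ?_ ?_
    · have h5 : σ τ - n = σ (τ - n) := by rw [map_sub, map_natCast]
      rw [h5, hσ]
      exact hn
    · rw [map_pow]
      exact pow_le_one' hbv j
    · rw [hσ, hτ1]
  have h5 : v (τ * s - (n : C) * b) < 1 := by
    refine Lev_mul hn hsb hnv ?_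
    rw [hs]
    refine v.map_sum_le fun i _ => ?_
    rw [map_pow, Lev_one hβ1, one_pow]
  have h6 : v ((((n : ℤ) * ((b : ℤ) ^ j - b) : ℤ)) : C) = 1 := by
    refine h.int_eq_one hp fun hdv => ?_
    rcases (Nat.prime_iff_prime_int.mp hp).dvd_or_dvd hdv with h7 | h7
    · exact hnp h7
    · exact hb h7
  have h7 : v (u ^ j * σ τ - τ * s) = 1 := by
    have h8 : u ^ j * σ τ - τ * s = ((u ^ j * σ τ - (b : C) ^ j * n) - (τ * s - (n : C) * b))
        + ((((n : ℤ) * ((b : ℤ) ^ j - b) : ℤ)) : C) := by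
      push_cast
      ring
    have h9 : v ((u ^ j * σ τ - (b : C) ^ j * n) - (τ * s - (n : C) * b)) <
        v ((((n : ℤ) * ((b : ℤ) ^ j - b) : ℤ)) : C) := by
      rw [h6]
      exact v.map_sub_lt h4 h5
    rw [h8, v.map_add_eq_of_lt_right h9, h6]
  have h8 := congrArg v h3
  rw [map_mul, map_mul, map_pow, Lev_one hβ1, one_pow, one_mul, h7, mul_one, hvj] at h8
  exact h8

private theorem Lev_root (hp : p.Prime) {i : ℕ} (hi : 1 ≤ i) (hi2 : i < p - 1) :
    ∃ b : (ZMod p)ˣ, ¬ (p : ℤ) ∣ (((b : ZMod p).val : ℕ) : ℤ) ^ (i + 1) -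
      (((b : ZMod p).val : ℕ) : ℤ) := by
  have := Fact.mk hp
  obtain ⟨g, hg⟩ := IsCyclic.exists_generator (α := (ZMod p)ˣ)
  refine ⟨g, fun hdv => ?_⟩
  have h2 := (ZMod.intCast_zmod_eq_zero_iff_dvd _ p).mpr hdv
  push_cast at h2
  rw [ZMod.natCast_zmod_val] at h2
  have h3 : (g : ZMod p) ^ i = 1 := by
    have h4 : (g : ZMod p) * ((g : ZMod p) ^ i - 1) = 0 := by
      rw [mul_sub, mul_one, ← pow_succ']
      exact h2
    rcases mul_eq_zero.mp h4 with h5 | h5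
    · exact absurd h5 g.ne_zero
    · exact sub_eq_zero.mp h5
  have h4 : g ^ i = 1 := by
    apply Units.ext
    rw [Units.val_pow_eq_pow_val, h3, Units.val_one]
  have h5 : orderOf g = p - 1 := by
    rw [orderOf_eq_card_of_forall_mem_zpowers hg, Nat.card_eq_fintype_card,
      ZMod.card_units_eq_totient, Nat.totient_prime hp]
  have h6 := Nat.le_of_dvd (by omega) (orderOf_dvd_of_pow_eq_one h4)
  omega

end Core

variable {p : ℕ} [Fact p.Prime] {F : Type*} [Field F] [NumberField F] (X : Cyc p F)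

theorem Cyc.level {β : F} (he : Eig X.sg β)
    (h : X.P.valuation F (β - 1) ≤ WithZero.exp (-2 : ℤ)) :
    X.P.valuation F (β - 1) ≤ WithZero.exp (-(p : ℤ)) := by
  have hp : p.Prime := Fact.out
  by_contra hlt
  rw [not_le] at hlt
  have h0 : X.P.valuation F (β - 1) ≠ 0 := (zero_le.trans_lt hlt).ne'
  obtain ⟨m, hm⟩ : ∃ m : ℤ, X.P.valuation F (β - 1) = WithZero.exp m :=
    ⟨_, (WithZero.exp_log h0).symm⟩
  rw [hm, WithZero.exp_le_exp] at h
  rw [hm, WithZero.exp_lt_exp] at hlt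
  obtain ⟨i, rfl⟩ : ∃ i : ℕ, m = -((i + 1 : ℕ) : ℤ) := ⟨(-m - 1).toNat, by omega⟩
  obtain ⟨b, hb⟩ := Lev_root hp (i := i) (by omega) (by omega)
  obtain ⟨d, -, hd⟩ := he b
  have h1 := Lev_core hp X.locF ((X.sg b : F ≃ₐ[ℚ] F) : F →+* F)
    (fun x => X.val_P ((X.sg b : F ≃ₐ[ℚ] F) : F ≃+* F) x) (X.hsg b) (by omega) hm hd hb
  have h2 : X.P.valuation F (d ^ p - 1) < 1 := by
    rw [h1, lt_one_iff, WithZero.exp_le_exp]
    omega
  have h3 := X.locF.root_level hp (X.locF.sub_one_lt hp h2)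
  rw [h1, WithZero.exp_le_exp] at h3
  omega

end Pool.Agent.Lib.MP_2f3286_ag.Fc
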