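import Pool.Agent.Lib.MP_2f3286_ag.Fc.Defs

/-! The Kummer extension of an eigenvector is abelian over `ℚ`. -/

set_option autoImplicit false

open IsDedekindDomain NumberField
open scoped WithZero

namespace Pool.Agent.Lib.MP_2f3286_ag.Fc

private theorem galQ_ext {F N : Type*} [Field F] [Field N] [Algebra F N] {x : N}
    (htop : IntermediateField.adjoin F {x} = ⊤) {f g : N →+* N}
    (h1 : ∀ a : F, f (algebraMap F N a) = g (algebraMap F N a)) (h2 : f x = g x) (z : N) :
    f z = g z := by
  have hz : z ∈ IntermediateField.adjoin F {x} := htop ▸ IntermediateField.mem_top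
  induction hz using IntermediateField.adjoin_induction with
  | mem y hy => rw [Set.mem_singleton_iff.mp hy]; exact h2
  | algebraMap a => exact h1 a
  | add y z _ _ hy hz => rw [map_add, map_add, hy, hz]
  | inv y _ hy => rw [map_inv₀, map_inv₀, hy]
  | mul y z _ _ hy hz => rw [map_mul, map_mul, hy, hz]

section

variable {p : ℕ} [Fact p.Prime] {F : Type*} [Field F] [NumberField F] (X : Cyc p F)

include X in
theorem Cyc.galQ {N : Type*} [Field N] [NumberField N] [Algebra F N] [IsGalois F N] {β : F}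
    {x : N} (hfin : Module.finrank F N = p) (hx : x ^ p = algebraMap F N β)
    (htop : IntermediateField.adjoin F {x} = ⊤) (he : Eig X.sg β)
    (hlift : ∀ σ : F ≃+* F, ∃ g : N ≃+* N, ∀ a : F, g (algebraMap F N a) = algebraMap F N (σ a)) :
    IsGalois ℚ N ∧ Nat.card Gal(N/ℚ) = p * (p - 1) ∧ ∀ g h : Gal(N/ℚ), g * h = h * g := by
  classical
  have hp : p.Prime := Fact.out
  have hcyc := X.cyc
  have hgalF : IsGalois ℚ F := IsCyclotomicExtension.isGalois {p} ℚ F
  have hinj : Function.Injective (algebraMap F N) := (algebraMap F N).injective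
  set R : Gal(N/ℚ) →* Gal(F/ℚ) := AlgEquiv.restrictNormalHom F with hR
  have hRc : ∀ (g : Gal(N/ℚ)) (a : F), algebraMap F N (R g a) = g (algebraMap F N a) := by
    intro g a
    exact AlgEquiv.restrictNormal_commutes g F a
  have hsurj : Function.Surjective R := by
    intro τ
    obtain ⟨g, hg⟩ := hlift τ.toRingEquiv
    let g' : Gal(N/ℚ) := AlgEquiv.ofRingEquiv (f := g) (fun q => by
      rw [eq_ratCast, map_ratCast])
    refine ⟨g', ?_⟩
    ext a
    apply hinj
    rw [hRc]
    exact hg a
  have hker : Nat.card R.ker = p := by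
    rw [← hfin, ← IsGalois.card_aut_eq_finrank F N]
    refine Nat.card_congr (Equiv.ofBijective (fun φ : R.ker => (AlgEquiv.ofRingEquiv
      (f := (φ : Gal(N/ℚ)).toRingEquiv) (fun a => ?_) : Gal(N/F))) ⟨?_, ?_⟩)
    · have h1 : R (φ : Gal(N/ℚ)) = 1 := φ.2
      have h2 := hRc φ a
      rw [h1] at h2
      exact h2.symm
    · intro φ ψ h
      apply Subtype.ext
      ext z
      exact congrArg (fun t : Gal(N/F) => t z) h
    · intro φ
      refine ⟨⟨φ.restrictScalars ℚ, ?_⟩, ?_⟩
      · rw [MonoidHom.mem_ker]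
        ext a
        apply hinj
        rw [hRc]
        exact φ.commutes a
      · ext z
        rfl
  have hcardF : Nat.card Gal(F/ℚ) = p - 1 := by
    rw [← Nat.card_congr X.sg.toEquiv, Nat.card_eq_fintype_card, ZMod.card_units]
  have hcard : Nat.card Gal(N/ℚ) = p * (p - 1) := by
    rw [Subgroup.card_eq_card_quotient_mul_card_subgroup R.ker, hker,
      Nat.card_congr (QuotientGroup.quotientKerEquivOfSurjective R hsurj).toEquiv, hcardF,
      mul_comm]
  have hfinQ : Module.finrank ℚ N = p * (p - 1) := by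
    rw [← Module.finrank_mul_finrank ℚ F N, hfin, ← IsGalois.card_aut_eq_finrank ℚ F, hcardF,
      mul_comm]
  have hgalN : IsGalois ℚ N := IsGalois.of_card_aut_eq_finrank ℚ N (by rw [hcard, hfinQ])
  refine ⟨hgalN, hcard, ?_⟩
  -- the kernel is central
  have hx0 : x ≠ 0 := by
    rintro rfl
    have h1 : (⊥ : IntermediateField F N) = ⊤ := by
      rw [← htop]
      exact (IntermediateField.adjoin_zero).symm
    have h2 : Module.finrank F N = 1 := by
      rw [← IntermediateField.finrank_top', ← h1, IntermediateField.finrank_bot]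
    rw [hfin] at h2
    exact hp.one_lt.ne' h2
  have hζN : IsPrimitiveRoot (algebraMap F N X.ζ) p := X.hζ.map_of_injective hinj
  have hroot : ∀ y z : N, z ≠ 0 → y ^ p = z ^ p → ∃ i : ℕ, y = algebraMap F N X.ζ ^ i * z := by
    intro y z hz h
    obtain ⟨i, -, hi⟩ := hζN.eq_pow_of_pow_eq_one (ξ := y / z) (by
      rw [div_pow, h, div_self (pow_ne_zero _ hz)])
    exact ⟨i, by rw [hi, div_mul_cancel₀ _ hz]⟩
  have hcyclic : IsCyclic Gal(F/ℚ) := isCyclic_of_surjective X.sg.toMonoidHom X.sg.surjective
  have hcen : R.ker ≤ Subgroup.center Gal(N/ℚ) := by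
    intro σ hσ
    rw [MonoidHom.mem_ker] at hσ
    rw [Subgroup.mem_center_iff]
    intro g
    have hσF : ∀ a : F, σ (algebraMap F N a) = algebraMap F N a := by
      intro a
      rw [← hRc, hσ]
      rfl
    obtain ⟨b, hb⟩ := X.sg.surjective (R g)
    obtain ⟨d, hd0, hd⟩ := he b
    have hdN : algebraMap F N d ≠ 0 := by
      intro h
      exact hd0 (hinj (by rw [h, map_zero]))
    obtain ⟨i, hi⟩ := hroot (g x) (x ^ (b : ZMod p).val * algebraMap F N d)
      (mul_ne_zero (pow_ne_zero _ hx0) hdN) (by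
        rw [← map_pow, hx, ← hRc, ← hb, hd, map_mul, map_pow, map_pow, mul_pow, ← pow_mul,
          mul_comm ((b : ZMod p).val) p, pow_mul, hx])
    obtain ⟨j, hj⟩ := hroot (σ x) x hx0 (by rw [← map_pow, hx, hσF])
    have hgζ : g (algebraMap F N X.ζ) = algebraMap F N X.ζ ^ (b : ZMod p).val := by
      rw [← hRc, ← hb, X.hsg, map_pow]
    ext z
    show g (σ z) = σ (g z)
    refine galQ_ext htop (f := (g : N →+* N).comp (σ : N →+* N))
      (g := (σ : N →+* N).comp (g : N →+* N)) (fun a => ?_) ?_ z
    · show g (σ (algebraMap F N a)) = σ (g (algebraMap F N a))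
      rw [hσF, ← hRc, hσF]
    · show g (σ x) = σ (g x)
      rw [hj, map_mul, map_pow, hgζ, hi]
      simp only [map_mul, map_pow, hσF, hj]
      ring
  have := R.isMulCommutative_of_isCyclic_of_ker_le_center hcen
  intro g h
  exact this.is_comm.comm g h

end

end Pool.Agent.Lib.MP_2f3286_ag.Fc
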