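import Pool.Agent.Lib.MP_2f3286_ag.Fc.Defs

/-! Lifting an automorphism to a Kummer extension. -/

set_option autoImplicit false

open IsDedekindDomain NumberField
open scoped WithZero

namespace Pool.Agent.Lib.MP_2f3286_ag.Fc

open Polynomial in
private theorem lift_hom {F N : Type*} [Field F] [Field N] [Algebra F N] {p : ℕ} {β : F}
    (hirr : Irreducible (X ^ p - C β : F[X])) {x : N} (hx : x ^ p = algebraMap F N β)
    (htop : IntermediateField.adjoin F {x} = ⊤) (σ : F →+* F) {y : N}
    (hy : y ^ p = algebraMap F N (σ β)) :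
    ∃ g : N →+* N, (∀ a, g (algebraMap F N a) = algebraMap F N (σ a)) ∧ g x = y := by
  have hf : Fact (Irreducible (X ^ p - C β : F[X])) := ⟨hirr⟩
  have he0 : eval₂ (algebraMap F N) x (X ^ p - C β) = 0 := by simp [hx]
  let e : AdjoinRoot (X ^ p - C β : F[X]) →+* N := AdjoinRoot.lift (algebraMap F N) x he0
  have heroot : e (AdjoinRoot.root _) = x := AdjoinRoot.lift_root he0
  have heof : ∀ a, e (AdjoinRoot.of _ a) = algebraMap F N a := fun a => AdjoinRoot.lift_of he0
  let e' : AdjoinRoot (X ^ p - C β : F[X]) →ₐ[F] N := { e with commutes' := heof }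
  have hbij : Function.Bijective e := by
    refine ⟨e.injective, ?_⟩
    have h1 : IntermediateField.adjoin F {x} ≤ e'.fieldRange := by
      rw [IntermediateField.adjoin_le_iff, Set.singleton_subset_iff]
      exact ⟨_, heroot⟩
    rw [htop, top_le_iff] at h1
    intro z
    have : z ∈ e'.fieldRange := h1 ▸ IntermediateField.mem_top
    exact this
  let E : AdjoinRoot (X ^ p - C β : F[X]) ≃+* N := RingEquiv.ofBijective e hbij
  have hf0 : eval₂ ((algebraMap F N).comp σ) y (X ^ p - C β) = 0 := by simp [hy]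
  let f : AdjoinRoot (X ^ p - C β : F[X]) →+* N := AdjoinRoot.lift ((algebraMap F N).comp σ) y hf0
  have hfroot : f (AdjoinRoot.root _) = y := AdjoinRoot.lift_root hf0
  refine ⟨f.comp (E.symm : N →+* AdjoinRoot (X ^ p - C β : F[X])), fun a => ?_, ?_⟩
  · show f (E.symm (algebraMap F N a)) = _
    have h1 : E.symm (algebraMap F N a) = AdjoinRoot.of _ a := by
      rw [RingEquiv.symm_apply_eq]
      exact (heof a).symm
    rw [h1]
    exact AdjoinRoot.lift_of hf0
  · show f (E.symm x) = y
    have h1 : E.symm x = AdjoinRoot.root _ := by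
      rw [RingEquiv.symm_apply_eq]
      exact heroot.symm
    rw [h1]
    exact hfroot

section

variable {p : ℕ} [Fact p.Prime] {F : Type*} [Field F] [NumberField F]

theorem exists_lift {N : Type*} [Field N] [NumberField N] [Algebra F N] {β : F} {x : N}
    (hβ : ∀ d : F, d ^ p ≠ β) (hx : x ^ p = algebraMap F N β)
    (htop : IntermediateField.adjoin F {x} = ⊤) (σ : F ≃+* F) {b : ℕ} (hb : ¬ p ∣ b) {d : F}
    (hd : σ β = β ^ b * d ^ p) :
    ∃ g : N ≃+* N, ∀ a : F, g (algebraMap F N a) = algebraMap F N (σ a) := by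
  have hp : p.Prime := Fact.out
  have hirr := X_pow_sub_C_irreducible_of_prime hp hβ
  obtain ⟨g, hg, -⟩ := lift_hom hirr hx htop (σ : F →+* F) (y := x ^ b * algebraMap F N d) (by
    rw [mul_pow, ← pow_mul, mul_comm b p, pow_mul, hx]
    simp [hd])
  let g' : N →ₐ[ℚ] N := g.toRatAlgHom
  exact ⟨(AlgEquiv.ofBijective g' g'.bijective).toRingEquiv, hg⟩

end

end Pool.Agent.Lib.MP_2f3286_ag.Fc
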