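import Mathlib

/-!
# A Galois extension of `ℚ` unramified over a Galois extension of degree `p - 1` has no quotient of
degree `p` (Minkowski)
-/

set_option autoImplicit false

open NumberField Module IsDedekindDomain

namespace Pool.Agent.Lib.MP_2f3286_ag.Fc

/-- The ramification indices of a Galois extension of `ℚ` divide the degree. -/
theorem noe_dvd (K : Type*) [Field K] [NumberField K] [IsGalois ℚ K] (P : Ideal (𝓞 K))
    [P.IsPrime] : P.ramificationIdx ℤ ∣ finrank ℚ K := by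
  have h1 := Ideal.ncard_primesOver_mul_ramificationIdxIn_mul_inertiaDegIn (P.under ℤ) (𝓞 K)
    (K ≃ₐ[ℚ] K)
  rw [Ideal.ramificationIdxIn_eq_ramificationIdx (P.under ℤ) P (K ≃ₐ[ℚ] K)] at h1
  rw [← IsGalois.card_aut_eq_finrank ℚ K, ← h1]
  exact (dvd_mul_right _ _).mul_left _

theorem no_ext {p : ℕ} (hp : p.Prime) {F N : Type*} [Field F] [NumberField F] [Field N]
    [NumberField N] [Algebra F N] [IsGalois ℚ F] (hF : Module.finrank ℚ F = p - 1) [IsGalois ℚ N]
    (hunr : ∀ (P : HeightOneSpectrum (𝓞 F)) (P' : HeightOneSpectrum (𝓞 N)),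
      ¬ P'.asIdeal ^ 2 ∣ P.asIdeal.map (algebraMap (𝓞 F) (𝓞 N)))
    (H : Subgroup Gal(N/ℚ)) [H.Normal] (hH : H.index = p) : False := by
  set N0 : IntermediateField ℚ N := IntermediateField.fixedField H with hN0
  have hgal : IsGalois ℚ N0 := IsGalois.of_fixedField_normal_subgroup H
  have hfin : finrank ℚ N0 = p := by
    have h : finrank ℚ N0 = N0.fixingSubgroup.index :=
      IntermediateField.finrank_eq_fixingSubgroup_index N N0
    rw [hN0, IntermediateField.fixingSubgroup_fixedField, hH] at h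
    rw [hN0, ← h]
  obtain ⟨l, hl, hram⟩ := NumberField.exists_not_isUnramifiedAt_int_of_isGalois (K := N0)
    (𝒪 := 𝓞 N0) (by rw [hfin]; exact hp.one_lt)
  -- a prime of `N` above `l`
  have hlp : (Ideal.span {(l : ℤ)}).IsPrime := by
    rw [Ideal.span_singleton_prime (by exact_mod_cast hl.ne_zero)]
    exact Nat.prime_iff_prime_int.1 hl
  obtain ⟨⟨Q0, hQ0, hQ0l⟩⟩ := (inferInstance : Nonempty
    ((Ideal.span {(l : ℤ)}).primesOver (𝓞 N)))
  have hl0 : (l : 𝓞 N) ∈ Q0 := by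
    have h1 : (l : ℤ) ∈ Ideal.span {(l : ℤ)} := Ideal.mem_span_singleton_self _
    rw [hQ0l.over] at h1
    have h2 : algebraMap ℤ (𝓞 N) (l : ℤ) ∈ Q0 := h1
    simpa using h2
  have hQne : Q0 ≠ ⊥ := by
    rintro rfl
    rw [Ideal.mem_bot] at hl0
    exact hl.ne_zero (by exact_mod_cast hl0)
  set P0 : Ideal (𝓞 N0) := Q0.under (𝓞 N0) with hP0
  have hP0p : P0.IsPrime := inferInstance
  have hlP0 : (l : 𝓞 N0) ∈ P0 := by
    show algebraMap (𝓞 N0) (𝓞 N) (l : 𝓞 N0) ∈ Q0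
    rw [map_natCast]
    exact hl0
  have hP0r : P0.ramificationIdx ℤ ≠ 1 := by
    intro h
    exact hram P0 hP0p hlP0 (Ideal.ramificationIdx_eq_one_iff.1 h)
  have hP0e : P0.ramificationIdx ℤ = p := by
    have h1 := noe_dvd N0 P0
    rw [hfin] at h1
    exact ((Nat.dvd_prime hp).1 h1).resolve_left hP0r
  set q : Ideal (𝓞 F) := Q0.under (𝓞 F) with hq
  have hqp : q.IsPrime := inferInstance
  have hqne : q ≠ ⊥ := by
    intro h
    have h1 : (l : 𝓞 F) ∈ q := by
      show algebraMap (𝓞 F) (𝓞 N) (l : 𝓞 F) ∈ Q0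
      rw [map_natCast]
      exact hl0
    rw [h, Ideal.mem_bot] at h1
    exact hl.ne_zero (by exact_mod_cast h1)
  have h1 : Q0.ramificationIdx ℤ = P0.ramificationIdx ℤ * Q0.ramificationIdx (𝓞 N0) :=
    Ideal.ramificationIdx_tower P0 Q0
  have h2 : Q0.ramificationIdx ℤ = q.ramificationIdx ℤ * Q0.ramificationIdx (𝓞 F) :=
    Ideal.ramificationIdx_tower q Q0
  have h3 : Q0.ramificationIdx (𝓞 F) = 1 := by
    have hmap : q.map (algebraMap (𝓞 F) (𝓞 N)) ≠ ⊥ := Ideal.map_ne_bot_of_ne_bot hqne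
    rw [Ideal.IsDedekindDomain.ramificationIdx_eq_multiplicity q Q0 hmap]
    refine multiplicity_eq_of_dvd_of_not_dvd ?_ ?_
    · rw [pow_one, Ideal.dvd_iff_le]
      exact Ideal.map_le_iff_le_comap.2 le_rfl
    · exact hunr ⟨q, hqp, hqne⟩ ⟨Q0, hQ0, hQne⟩
  have h4 : q.ramificationIdx ℤ ∣ p - 1 := hF ▸ noe_dvd F q
  rw [h3, mul_one] at h2
  have h5 : p ∣ p - 1 := by
    rw [h2, hP0e] at h1
    exact (Dvd.intro _ h1.symm).trans h4
  have h6 : p ≤ p - 1 := Nat.le_of_dvd (Nat.sub_pos_of_lt hp.one_lt) h5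
  have := hp.pos
  omega

end Pool.Agent.Lib.MP_2f3286_ag.Fc
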