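import Mathlib

/-!
# A commutative group of order `p (p - 1)` has a subgroup of index `p`
-/

set_option autoImplicit false

namespace Pool.Agent.Lib.MP_2f3286_ag.Fc

theorem exists_sub {G : Type*} [Group G] [Finite G] (hcomm : ∀ g h : G, g * h = h * g) {p : ℕ}
    (hp : p.Prime) (hcard : Nat.card G = p * (p - 1)) :
    ∃ H : Subgroup G, H.Normal ∧ H.index = p := by
  classical
  let _ : CommGroup G := { (inferInstance : Group G) with mul_comm := hcomm }
  have : Fact p.Prime := ⟨hp⟩
  set f : G →* G := powMonoidHom p with hf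
  -- the kernel has order `p`
  have hker : Nat.card f.ker = p := by
    have hpg : IsPGroup p f.ker := by
      intro g
      refine ⟨1, ?_⟩
      rw [pow_one]
      have h1 : f (g : G) = 1 := g.2
      ext
      exact h1
    obtain ⟨n, hn⟩ := hpg.exists_card_eq
    have hdvd : Nat.card f.ker ∣ p * (p - 1) := hcard ▸ Subgroup.card_subgroup_dvd_card _
    have hcop : Nat.Coprime p (p - 1) := by
      have h1 := hp.pos
      rw [Nat.Prime.coprime_iff_not_dvd hp]
      intro h
      have h2 := Nat.le_of_dvd (Nat.sub_pos_of_lt hp.one_lt) h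
      omega
    have hn1 : n ≤ 1 := by
      by_contra h
      have h1 : p ^ 2 ∣ p * (p - 1) := (pow_dvd_pow p (by omega : 2 ≤ n)).trans (hn ▸ hdvd)
      rw [sq] at h1
      have h2 : p ∣ p - 1 := Nat.dvd_of_mul_dvd_mul_left hp.pos h1
      exact ((Nat.Prime.coprime_iff_not_dvd hp).1 hcop) h2
    have hn0 : n ≠ 0 := by
      rintro rfl
      -- an element of order `p`
      obtain ⟨g, hg⟩ := exists_prime_orderOf_dvd_card' (G := G) p (hcard ▸ dvd_mul_right _ _)
      have h1 : g ∈ f.ker := by
        rw [MonoidHom.mem_ker]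
        show g ^ p = 1
        rw [← hg]
        exact pow_orderOf_eq_one g
      have h2 : Nat.card f.ker = 1 := by rw [hn, pow_zero]
      have h3 : f.ker = ⊥ := Subgroup.eq_bot_of_card_eq _ h2
      rw [h3, Subgroup.mem_bot] at h1
      rw [h1, orderOf_one] at hg
      exact hp.one_lt.ne hg
    have : n = 1 := by omega
    rw [hn, this, pow_one]
  refine ⟨f.range, inferInstance, ?_⟩
  have h1 : Nat.card f.range * Nat.card f.ker = Nat.card G := by
    have h2 := Subgroup.card_eq_card_quotient_mul_card_subgroup f.ker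
    rw [Nat.card_congr (QuotientGroup.quotientKerEquivRange f).toEquiv] at h2
    exact h2.symm
  have h2 := f.range.card_mul_index
  rw [hker, hcard] at h1
  have hp1 : 0 < p - 1 := Nat.sub_pos_of_lt hp.one_lt
  have h3 : Nat.card f.range = p - 1 := by
    rw [mul_comm p] at h1
    exact Nat.eq_of_mul_eq_mul_right hp.pos h1
  rw [h3, hcard, mul_comm p] at h2
  exact Nat.eq_of_mul_eq_mul_left hp1 h2

end Pool.Agent.Lib.MP_2f3286_ag.Fc
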