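import Pool.Agent.Lib.MP_2f3286_ag.Fc.CycE
import Pool.Agent.Lib.MP_2f3286_ag.Fc.Lift
import Pool.Agent.Lib.MP_2f3286_ag.Fc.GalQ
import Pool.Agent.Lib.MP_2f3286_ag.Fc.Sub
import Pool.Agent.Lib.MP_2f3286_ag.Fc.NoE
import Pool.Agent.Lib.MP_2f3286_ag.GK.Kum

/-! An element of the cyclotomic field on which the Galois group acts, up to `p`-th powers, like on
the `p`-th roots of unity, and whose `p`-th root generates an unramified extension, is a `p`-th
power: otherwise `ℚ` has an unramified extension of degree `p`. -/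

set_option autoImplicit false

open IsDedekindDomain NumberField Module Polynomial
open scoped WithZero

namespace Pool.Agent.Lib.MP_2f3286_ag.Fc

open Pool.Agent.Lib.MP_2f3286_ag.Fer (Loc PV)

section

variable {p : ℕ} [Fact p.Prime] {F : Type*} [Field F] [NumberField F] (X : Cyc p F)

/-- Every automorphism of `F` is one of the `sg b`. -/
private theorem pow_auto (σ : F ≃+* F) : ∃ b : (ZMod p)ˣ, ∀ x, σ x = X.sg b x := by
  obtain ⟨b, hb⟩ := X.sg.surjective (AlgEquiv.ofRingEquiv (f := σ) (fun q => by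
    rw [eq_ratCast, map_ratCast]) : Gal(F/ℚ))
  exact ⟨b, fun x => by rw [hb]; rfl⟩

theorem Cyc.isPow {β : F} (hβ : β ≠ 0) (he : Eig X.sg β)
    (hpv : ∀ w : HeightOneSpectrum (𝓞 F), PV p w β)
    (hP : X.P.valuation F (β - 1) ≤ WithZero.exp (-(p : ℤ))) : ∃ d : F, d ^ p = β := by
  classical
  have hp : p.Prime := Fact.out
  by_contra hcon
  push Not at hcon
  have H : Irreducible (Polynomial.X ^ p - C β : F[X]) :=
    X_pow_sub_C_irreducible_of_prime hp hcon
  have hζ0 : (primitiveRoots p F).Nonempty := ⟨X.ζ, (mem_primitiveRoots hp.pos).mpr X.hζ⟩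
  let N := (Polynomial.X ^ p - C β : F[X]).SplittingField
  have hNF : NumberField N := NumberField.of_module_finite F N
  have hgal : IsGalois F N := isGalois_of_isSplittingField_X_pow_sub_C hζ0 H N
  have hfin : finrank F N = p := finrank_of_isSplittingField_X_pow_sub_C hζ0 H N
  have hx : (rootOfSplitsXPowSubC hp.pos β N) ^ p = algebraMap F N β := by
    have : NeZero p := ⟨hp.ne_zero⟩
    exact rootOfSplitsXPowSubC_pow β N
  have htop : IntermediateField.adjoin F {rootOfSplitsXPowSubC hp.pos β N} = ⊤ :=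
    IntermediateField.adjoin_root_eq_top_of_isSplittingField hζ0 H hx
  have hlift : ∀ σ : F ≃+* F, ∃ g : N ≃+* N, ∀ a : F,
      g (algebraMap F N a) = algebraMap F N (σ a) := by
    intro σ
    obtain ⟨b, hb⟩ := pow_auto X σ
    obtain ⟨d, -, hd⟩ := he b
    refine exists_lift hcon hx htop σ (b := (b : ZMod p).val) (d := d) ?_ ?_
    · intro hdvd
      have h1 : ((b : ZMod p).val : ZMod p) = 0 := (ZMod.natCast_eq_zero_iff _ _).mpr hdvd
      rw [ZMod.natCast_val, ZMod.cast_id] at h1
      exact b.ne_zero h1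
    · rw [hb]
      exact hd
  obtain ⟨hG, hcard, hcomm⟩ := X.galQ hfin hx htop he hlift
  obtain ⟨H', hH'n, hH'i⟩ := exists_sub hcomm hp hcard
  have hcyc := X.cyc
  have : NeZero p := ⟨hp.ne_zero⟩
  have hFG : IsGalois ℚ F := IsCyclotomicExtension.isGalois {p} ℚ F
  have hF : finrank ℚ F = p - 1 := by
    rw [IsCyclotomicExtension.Rat.finrank p F, Nat.totient_prime hp]
  refine no_ext hp (F := F) (N := N) hF (fun P P' => ?_) H' hH'i
  by_cases hPp : (p : 𝓞 F) ∈ P.asIdeal
  · have hPe : P = X.P := by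
      by_contra hne
      exact X.away P hne hPp
    subst hPe
    refine FermGK.unram_of_dvd hp X.hζ hx htop X.P P' hPp ?_
    have h1 : X.P.valuation F (1 - X.ζ) = WithZero.exp (-1 : ℤ) := by
      rw [Valuation.map_sub_swap]
      exact X.locF.val_pi
    rw [h1, ← WithZero.exp_nsmul]
    refine hP.trans (le_of_eq ?_)
    congr 1
    simp
  · obtain ⟨z, -, hz⟩ := hpv P
    exact FermGK.unram_of_ne hp hβ hx htop P P' hPp hz

end

end Pool.Agent.Lib.MP_2f3286_ag.Fc
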