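import Pool.Agent.Lib.MP_2f3286_ag.Fc.Defs

/-!
# The first case for sections, module Res: the residue field at a prime above `r`
-/

set_option autoImplicit false

open IsDedekindDomain NumberField
open scoped WithZero

namespace Pool.Agent.Lib.MP_2f3286_ag.Fc

variable {p : ℕ} [Fact p.Prime] {F : Type*} [Field F] [NumberField F] (X : Cyc p F)

/-- an integral element congruent to an element of valuation at most one -/
theorem res_integer (w : HeightOneSpectrum (𝓞 F)) {u : F} (hu : w.valuation F u ≤ 1) :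
    ∃ a : 𝓞 F, w.valuation F (algebraMap (𝓞 F) F a - u) < 1 := by
  obtain ⟨a, ha⟩ := w.exists_valuation_sub_lt_of_integer hu 1
  exact ⟨a, by simpa using ha⟩

/-- the residue field has `r ^ f` elements, and `f` divides `p - 1` -/
theorem res_card {r : ℕ} (hr : r.Prime) (hrp : r ≠ p) (w : HeightOneSpectrum (𝓞 F))
    [IsCyclotomicExtension {p} ℚ F] (hw : (r : 𝓞 F) ∈ w.asIdeal) :
    ∃ f : ℕ, f ∣ p - 1 ∧ Nat.card (𝓞 F ⧸ w.asIdeal) = r ^ f := by
  have hp : p.Prime := Fact.out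
  have hrf : Fact r.Prime := ⟨hr⟩
  have hpr := w.isPrime
  have hlo : w.asIdeal.LiesOver (Ideal.span {(r : ℤ)}) := by
    have hmax : (Ideal.span {(r : ℤ)}).IsMaximal := by
      apply PrincipalIdealRing.isMaximal_of_irreducible
      exact (Nat.prime_iff_prime_int.1 hr).irreducible
    constructor
    refine hmax.eq_of_le (Ideal.IsPrime.ne_top (Ideal.comap_isPrime _ _)) ?_
    rw [Ideal.span_le, Set.singleton_subset_iff]
    show algebraMap ℤ (𝓞 F) (r : ℤ) ∈ w.asIdeal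
    simpa using hw
  have hdvd : ¬ r ∣ p := fun h => hrp ((Nat.prime_dvd_prime_iff_eq hr hp).1 h)
  have hf := IsCyclotomicExtension.Rat.inertiaDeg_eq_of_not_dvd r F w.asIdeal hdvd
  have hcard := Ideal.pow_inertiaDeg r w.asIdeal
  refine ⟨orderOf (r : ZMod p), ?_, ?_⟩
  · apply orderOf_dvd_of_pow_eq_one
    apply ZMod.pow_card_sub_one_eq_one
    intro h
    rw [ZMod.natCast_eq_zero_iff] at h
    exact hrp ((Nat.prime_dvd_prime_iff_eq hp hr).1 h).symm
  · rw [← hf, hcard]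
    rfl

theorem Cyc.res {r : ℕ} (hr : r.Prime) (hrp : r ≠ p) (w : HeightOneSpectrum (𝓞 F))
    (hw : (r : 𝓞 F) ∈ w.asIdeal) {u : F} {k : ℕ} (hk : ¬ p ∣ k)
    (h : w.valuation F (u ^ p - X.ζ ^ k) < 1) : r ^ (p - 1) ≡ 1 [MOD p ^ 2] := by
  have hp : p.Prime := Fact.out
  have hcyc := X.cyc
  have hpr := w.isPrime
  -- `p` is not in `w`
  have hpw : (p : 𝓞 F) ∉ w.asIdeal := by
    intro h1
    have hcop : IsCoprime (p : ℤ) (r : ℤ) := by
      rw [Nat.isCoprime_iff_coprime, Nat.coprime_primes hp hr]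
      exact hrp.symm
    obtain ⟨a, b, hab⟩ := hcop
    apply hpr.ne_top
    rw [Ideal.eq_top_iff_one]
    have h2 : (1 : 𝓞 F) = (a : 𝓞 F) * (p : 𝓞 F) + (b : 𝓞 F) * (r : 𝓞 F) := by
      have := congrArg (Int.cast : ℤ → 𝓞 F) hab
      push_cast at this
      exact this.symm
    rw [h2]
    exact Ideal.add_mem _ (Ideal.mul_mem_left _ _ h1) (Ideal.mul_mem_left _ _ hw)
  -- `u` is a unit
  have hz : w.valuation F (X.ζ ^ k) = 1 := Fer.zeta_unit hp X.hζ w k
  have hup : w.valuation F (u ^ p) = 1 := by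
    have h1 : u ^ p = (u ^ p - X.ζ ^ k) + X.ζ ^ k := by ring
    rw [h1, Valuation.map_add_eq_of_lt_right, hz]
    rw [hz]
    exact h
  have hu : w.valuation F u = 1 := by
    rw [map_pow] at hup
    exact (pow_eq_one_iff.1 hup).resolve_right hp.ne_zero
  obtain ⟨a, ha⟩ := res_integer w hu.le
  -- the integral primitive root
  obtain ⟨z, hzz⟩ : ∃ z : 𝓞 F, algebraMap (𝓞 F) F z = X.ζ := ⟨X.hζ.toInteger, rfl⟩
  have ha1 : w.valuation F (algebraMap (𝓞 F) F a) ≤ 1 := w.valuation_le_one a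
  have hap : a ^ p - z ^ k ∈ w.asIdeal := by
    rw [← w.valuation_lt_one_iff_mem (K := F)]
    have h2 : ((a ^ p - z ^ k : 𝓞 F) : F) = ((algebraMap (𝓞 F) F a) ^ p - u ^ p) + (u ^ p - X.ζ ^ k) := by
      rw [← hzz]
      show algebraMap (𝓞 F) F (a ^ p - z ^ k) = _
      rw [map_sub, map_pow, map_pow]
      ring
    show w.valuation F ((a ^ p - z ^ k : 𝓞 F) : F) < 1
    rw [h2]
    refine (Valuation.map_add _ _ _).trans_lt (max_lt ?_ h)
    have h3 : (algebraMap (𝓞 F) F a) ^ p - u ^ p =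
        (algebraMap (𝓞 F) F a - u) * ∑ i ∈ Finset.range p, (algebraMap (𝓞 F) F a) ^ i * u ^ (p - 1 - i) := by
      rw [mul_comm, Commute.geom_sum₂_mul (Commute.all _ _)]
    rw [h3, map_mul]
    refine mul_lt_one_of_lt_of_le ha ?_
    refine Valuation.map_sum_le _ fun i _ => ?_
    rw [map_mul, map_pow, map_pow, hu, one_pow, mul_one]
    exact pow_le_one₀ zero_le ha1
  -- the residue field
  obtain ⟨f, hf, hcard⟩ := res_card hr hrp w hw
  have hmax : w.asIdeal.IsMaximal := w.isMaximal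
  let _ : Field (𝓞 F ⧸ w.asIdeal) := Ideal.Quotient.field w.asIdeal
  have hfin : Finite (𝓞 F ⧸ w.asIdeal) := by
    apply Nat.finite_of_card_ne_zero
    rw [hcard]
    exact pow_ne_zero _ hr.ne_zero
  obtain ⟨A, hA⟩ : ∃ A, A = Ideal.Quotient.mk w.asIdeal a := ⟨_, rfl⟩
  obtain ⟨Z, hZ⟩ : ∃ Z, Z = Ideal.Quotient.mk w.asIdeal z := ⟨_, rfl⟩
  have hAZ : A ^ p = Z ^ k := by
    rw [hA, hZ, ← map_pow, ← map_pow, Ideal.Quotient.eq]
    exact hap
  have hzp : z ^ p = 1 := by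
    apply RingOfIntegers.ext
    show algebraMap (𝓞 F) F (z ^ p) = algebraMap (𝓞 F) F 1
    rw [map_pow, hzz, map_one, X.hζ.pow_eq_one]
  have hZp : Z ^ p = 1 := by
    rw [hZ, ← map_pow, hzp, map_one]
  have hZk : Z ^ k ≠ 1 := by
    intro h1
    rw [hZ, ← map_pow, ← (Ideal.Quotient.mk w.asIdeal).map_one, Ideal.Quotient.eq] at h1
    rw [← w.valuation_lt_one_iff_mem (K := F)] at h1
    have h2 := Fer.away_unit hp X.hζ w hpw hk
    have h3 : ((z ^ k - 1 : 𝓞 F) : F) = X.ζ ^ k - 1 := by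
      show algebraMap (𝓞 F) F (z ^ k - 1) = _
      rw [map_sub, map_pow, hzz, map_one]
    have h4 : w.valuation F ((z ^ k - 1 : 𝓞 F) : F) < 1 := h1
    rw [h3, h2] at h4
    exact lt_irrefl _ h4
  have hord : orderOf A = p ^ 2 := by
    apply orderOf_eq_prime_pow
    · rw [pow_one, hAZ]
      exact hZk
    · rw [pow_succ, pow_one, pow_mul, hAZ, ← pow_mul, mul_comm, pow_mul, hZp, one_pow]
  have hA0 : A ≠ 0 := by
    intro h1
    rw [h1, orderOf_zero] at hord
    have : 0 < p ^ 2 := pow_pos hp.pos 2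
    omega
  have hdiv : p ^ 2 ∣ r ^ f - 1 := by
    rw [← hord, ← hcard]
    apply orderOf_dvd_of_pow_eq_one
    have := Fintype.ofFinite (𝓞 F ⧸ w.asIdeal)
    rw [Nat.card_eq_fintype_card]
    exact FiniteField.pow_card_sub_one_eq_one A hA0
  have hdiv2 : r ^ f - 1 ∣ r ^ (p - 1) - 1 := by
    obtain ⟨c, hc⟩ := hf
    rw [hc, pow_mul]
    have := Nat.sub_dvd_pow_sub_pow (r ^ f) 1 c
    rwa [one_pow] at this
  have h1r : 1 ≤ r ^ (p - 1) := Nat.one_le_pow _ _ hr.pos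
  exact ((Nat.modEq_iff_dvd' h1r).2 (hdiv.trans hdiv2)).symm

end Pool.Agent.Lib.MP_2f3286_ag.Fc
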