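import Pool.Agent.Lib.MP_2f3286_ag.Fc.Defs
import Pool.Agent.Lib.MP_2f3286_ag.Fc.Eig
import Pool.Agent.Lib.MP_2f3286_ag.Fc.Btp
import Pool.Agent.Lib.MP_2f3286_ag.Fc.Btr
import Pool.Agent.Lib.MP_2f3286_ag.Fc.Lev
import Pool.Agent.Lib.MP_2f3286_ag.Fc.Pow
import Pool.Agent.Lib.MP_2f3286_ag.Fc.Res

/-!
# The first case of Fermat's theorem for sections: the number theory
-/

set_option autoImplicit false

open IsDedekindDomain NumberField
open scoped WithZero

namespace Pool.Agent.Lib.MP_2f3286_ag.Fc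

open Pool.Agent.Lib.MP_2f3286_ag.Fer (Loc PV Plc Good)

section

variable {p : ℕ} [Fact p.Prime] {F : Type*} [Field F] [NumberField F] (X : Cyc p F)

/-- there is a prime above `r` -/
private theorem wie_prime {F : Type*} [Field F] [NumberField F] {r : ℕ} (hr : r.Prime) :
    ∃ w : HeightOneSpectrum (𝓞 F), (r : 𝓞 F) ∈ w.asIdeal := by
  have hrz : Prime (r : ℤ) := Nat.prime_iff_prime_int.1 hr
  have hmax : (Ideal.span {(r : ℤ)}).IsMaximal :=
    PrincipalIdealRing.isMaximal_of_irreducible hrz.irreducible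
  obtain ⟨Q, hQm, hQ⟩ := Ideal.exists_maximal_ideal_liesOver_of_isIntegral
    (Ideal.span {(r : ℤ)}) (S := 𝓞 F)
  have hmem : (r : 𝓞 F) ∈ Q := by
    have h1 : (r : ℤ) ∈ Q.under ℤ := by
      rw [← hQ.over]
      exact Ideal.mem_span_singleton_self _
    have h2 := Ideal.mem_comap.1 h1
    simpa using h2
  refine ⟨⟨Q, hQm.isPrime, ?_⟩, hmem⟩
  rintro rfl
  rw [Ideal.mem_bot] at hmem
  exact hr.ne_zero (by exact_mod_cast hmem)

/-- the eigenvector property is not changed by `p`-th powers -/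
private theorem wie_eig {β t : F} (ht : t ≠ 0) (h : Eig X.sg β) : Eig X.sg (β * t ^ p) := by
  intro b
  obtain ⟨d, hd, hdb⟩ := h b
  have hst : X.sg b t ≠ 0 := (map_ne_zero _).2 ht
  refine ⟨d * X.sg b t * (t ^ (b : ZMod p).val)⁻¹, ?_, ?_⟩
  · exact mul_ne_zero (mul_ne_zero hd hst) (inv_ne_zero (pow_ne_zero _ ht))
  · rw [map_mul, map_pow, hdb]
    have h1 : t ^ (b : ZMod p).val ≠ 0 := pow_ne_zero _ ht
    rw [mul_pow, mul_pow, mul_pow, inv_pow, ← pow_mul t p, ← pow_mul t (b : ZMod p).val p,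
      mul_comm p (b : ZMod p).val]
    have h2 : t ^ ((b : ZMod p).val * p) ≠ 0 := pow_ne_zero _ ht
    field_simp

theorem Cyc.wieferich {r : ℕ} (hr : r.Prime) (hrp : r ≠ p) {c : F} (hc : c ≠ 0)
    (hpv : ∀ w : HeightOneSpectrum (𝓞 F), w ≠ X.P → PV p w c) {m k : ℕ}
    (hmk : ¬ m ≡ k [MOD p])
    (hm : ∃ t : F, t ≠ 0 ∧ X.P.valuation F (c * t ^ p - X.ζ ^ m) ≤ WithZero.exp (-2 : ℤ))
    (hk : ∀ w : HeightOneSpectrum (𝓞 F), (r : 𝓞 F) ∈ w.asIdeal →
      ∃ t : F, t ≠ 0 ∧ w.valuation F (c * t ^ p - X.ζ ^ k) < 1) :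
    r ^ (p - 1) ≡ 1 [MOD p ^ 2] := by
  have hp : p.Prime := Fact.out
  have hp1 : 1 ≤ p := hp.one_lt.le
  have hζ0 : X.ζ ≠ 0 := X.hζ.ne_zero hp.ne_zero
  have hζu : ∀ (w : HeightOneSpectrum (𝓞 F)) (j : ℕ), w.valuation F (X.ζ ^ j) = 1 :=
    fun w j => Fer.zeta_unit hp X.hζ w j
  have hexp : (WithZero.exp (-2 : ℤ) : ℤᵐ⁰) < 1 := by
    rw [← WithZero.exp_zero]
    exact WithZero.exp_lt_exp.2 (by norm_num)
  set c' := c * X.ζ ^ ((p - 1) * m) with hc'
  have hc'0 : c' ≠ 0 := mul_ne_zero hc (pow_ne_zero _ hζ0)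
  obtain ⟨t, ht0, ht⟩ := hm
  -- at `P`
  have hcP : X.P.valuation F (c' * t ^ p - 1) ≤ WithZero.exp (-2 : ℤ) := by
    have h1 : c' * t ^ p - 1 = X.ζ ^ ((p - 1) * m) * (c * t ^ p - X.ζ ^ m) := by
      have h2 : X.ζ ^ ((p - 1) * m) * X.ζ ^ m = 1 := by
        rw [← pow_add, show (p - 1) * m + m = p * m by
          obtain ⟨q, hq⟩ : ∃ q, p = q + 1 := ⟨p - 1, by omega⟩
          rw [hq]; simp; ring, pow_mul, X.hζ.pow_eq_one, one_pow]
      rw [hc', mul_sub, h2]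
      ring
    rw [h1, map_mul, hζu, one_mul]
    exact ht
  -- the valuations
  have hcpv : ∀ w : HeightOneSpectrum (𝓞 F), PV p w c' := by
    intro w
    by_cases hw : w = X.P
    · subst hw
      have h1 : X.P.valuation F (c' * t ^ p) = 1 := by
        have h2 : X.P.valuation F (c' * t ^ p - 1) < X.P.valuation F (1 : F) := by
          rw [map_one]
          exact hcP.trans_lt hexp
        have h3 := Valuation.map_add_eq_of_lt_left (X.P.valuation F) h2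
        rw [add_sub_cancel, map_one] at h3
        exact h3
      have h4 : c' = (c' * t ^ p) * (t⁻¹) ^ p := by
        rw [mul_assoc, ← mul_pow, mul_inv_cancel₀ ht0, one_pow, mul_one]
      rw [h4]
      exact (PV.of_unit h1).mul (PV.pow_right X.P (inv_ne_zero ht0))
    · exact (hpv w hw).mul (PV.of_unit (hζu w _))
  -- at the primes above `r`
  have hcr : ∀ w : HeightOneSpectrum (𝓞 F), (r : 𝓞 F) ∈ w.asIdeal →
      ∃ t : F, t ≠ 0 ∧ w.valuation F (c' * t ^ p - X.ζ ^ (k + (p - 1) * m)) < 1 := by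
    intro w hw
    obtain ⟨t, ht0, ht⟩ := hk w hw
    refine ⟨t, ht0, ?_⟩
    have h1 : c' * t ^ p - X.ζ ^ (k + (p - 1) * m) =
        X.ζ ^ ((p - 1) * m) * (c * t ^ p - X.ζ ^ k) := by
      rw [hc', pow_add]
      ring
    rw [h1, map_mul, hζu, one_mul]
    exact ht
  obtain ⟨hβ0, hβe⟩ := X.bt_eigen hc'0
  obtain ⟨t', ht'0, ht'⟩ := X.bt_P ht0 hcP
  have he2 := wie_eig X ht'0 hβe
  have hβ20 : bt X.sg c' * t' ^ p ≠ 0 := mul_ne_zero hβ0 (pow_ne_zero _ ht'0)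
  obtain ⟨δ, hδ⟩ := X.isPow hβ20 he2
    (fun w => (X.bt_pv hcpv w).mul (PV.pow_right w ht'0)) (X.level he2 ht')
  obtain ⟨w, hw⟩ := wie_prime (F := F) hr
  obtain ⟨u, hu0, hu⟩ := X.bt_r hcr w hw
  refine X.res hr hrp w hw (u := δ * u * t'⁻¹) (k := (p - 1) * (k + (p - 1) * m)) ?_ ?_
  · intro hdiv
    rcases (Nat.Prime.dvd_mul hp).1 hdiv with h | h
    · have := Nat.le_of_dvd (by have := hp.two_le; omega) h
      omega
    · apply hmk
      have h1 : (k : ZMod p) + ((p : ZMod p) - 1) * m = 0 := by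
        have := (ZMod.natCast_eq_zero_iff (k + (p - 1) * m) p).2 h
        rw [Nat.cast_add, Nat.cast_mul, Nat.cast_sub hp1, Nat.cast_one] at this
        exact this
      rw [ZMod.natCast_self, zero_sub, neg_mul, one_mul, add_neg_eq_zero] at h1
      exact ((ZMod.natCast_eq_natCast_iff m k p).1 h1.symm)
  · have h1 : (δ * u * t'⁻¹) ^ p = bt X.sg c' * u ^ p := by
      rw [mul_pow, mul_pow, hδ, inv_pow]
      have h2 : t' ^ p ≠ 0 := pow_ne_zero _ ht'0
      field_simp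
    rw [h1]
    exact hu

end

end Pool.Agent.Lib.MP_2f3286_ag.Fc
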