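import Pool.Agent.Lib.MP_2f3286_ag.Fc.ExM
import Pool.Agent.Lib.MP_2f3286_ag.Fc.ToF
import Pool.Agent.Lib.MP_2f3286_ag.Fc.Wie
import Pool.Agent.Lib.MP_2f3286_ag.Fer.Tp.D

/-!
# The first case for sections, over the cyclotomic field   (module FcF)
-/

set_option autoImplicit false

open IsDedekindDomain NumberField
open scoped WithZero

namespace Pool.Agent.Lib.MP_2f3286_ag.Fc

open Pool.Agent.Lib.MP_2f3286_ag.Fer (Loc PV Plc Good)
open Pool.Agent.Lib.MP_2f3286_ag.Fer.Tp (DataP GoodU)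

private theorem fcf_lt {x : ℤᵐ⁰} (h : x < 1) : x ≤ WithZero.exp (-1 : ℤ) := by
  rcases eq_or_ne x 0 with rfl | hx
  · exact zero_le
  · rw [← WithZero.log_le_iff_le_exp hx]
    rw [← WithZero.exp_zero, ← WithZero.log_lt_iff_lt_exp hx] at h
    omega

private theorem fcf_lt' {x : ℤᵐ⁰} (h : x ≤ WithZero.exp (-1 : ℤ)) : x < 1 := by
  refine h.trans_lt ?_
  rw [← WithZero.exp_zero, WithZero.exp_lt_exp]
  norm_num

private theorem fcf_add {C : Type*} [Field C] {v : Valuation C ℤᵐ⁰} {x y : C} (hx : v x = 1)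
    (hy : v y < 1) : v (x + y) = 1 := by
  rw [Valuation.map_add_eq_of_lt_left v (by rw [hx]; exact hy), hx]

private theorem fcf_mul {x y : ℤᵐ⁰} (hx : x < 1) (hy : y ≤ 1) : x * y < 1 :=
  (mul_le_of_le_one_right' hy).trans_lt hx

private theorem fcf_step {p : ℕ} (hp : p ≠ 0) {F : Type*} [Field F] [NumberField F] {L : Type*}
    [Field L] [Algebra F L] {w : HeightOneSpectrum (𝓞 F)} {Q : Plc L (w.adicCompletion F)}
    (hQ : ∀ a : F, Q.Has (algebraMap F L a) (algebraMap F (w.adicCompletion F) a)) {c : F}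
    (hc : c ≠ 0) {g A B : L} {α β : w.adicCompletion F} (hA : Q.Has A α) (hB : Q.Has B β)
    (hα : Valued.v α = (1 : ℤᵐ⁰)) (hβ : Valued.v β = (1 : ℤᵐ⁰))
    (h : A = algebraMap F L c * g ^ p * B) {a : F} {n : ℤ}
    (hn : Valued.v (α - algebraMap F (w.adicCompletion F) a * β) ≤ WithZero.exp n) :
    ∃ t : F, t ≠ 0 ∧ w.valuation F (c * t ^ p - a) ≤ WithZero.exp n := by
  have hα0 : α ≠ 0 := by
    rintro rfl
    rw [map_zero] at hα
    exact zero_ne_one hα
  have hβ0 : β ≠ 0 := by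
    rintro rfl
    rw [map_zero] at hβ
    exact zero_ne_one hβ
  have hB0 : B ≠ 0 := hB.ne_zero hβ0
  have hcL : algebraMap F L c ≠ 0 := by
    rw [Ne, FaithfulSMul.algebraMap_eq_zero_iff]
    exact hc
  have hcK : algebraMap F (w.adicCompletion F) c ≠ 0 := by
    rw [Ne, FaithfulSMul.algebraMap_eq_zero_iff]
    exact hc
  have h1 : Q.Has (g ^ p) (α / β / algebraMap F (w.adicCompletion F) c) := by
    have h2 : g ^ p = A / B / algebraMap F L c := by
      rw [h]
      field_simp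
    rw [h2]
    exact (hA.div hB hβ0).div (hQ c) hcK
  obtain ⟨x, -, hx⟩ := Plc.pow_has hp h1
  have hx0 : x ≠ 0 := by
    rintro rfl
    rw [zero_pow hp] at hx
    exact div_ne_zero (div_ne_zero hα0 hβ0) hcK hx.symm
  refine to_F w hx0 ?_
  have h3 : algebraMap F (w.adicCompletion F) c * x ^ p - algebraMap F (w.adicCompletion F) a =
      (α - algebraMap F (w.adicCompletion F) a * β) / β := by
    rw [hx]
    field_simp
  rw [h3, map_div₀, hβ, div_one]
  exact hn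

section

variable {p : ℕ} [Fact p.Prime] {F : Type*} [Field F] [NumberField F] (X : Cyc p F)
  {L : Type*} [Field L] [Algebra F L]

theorem fc_F {r : ℕ} (hr : r.Prime) (hrp : r ≠ p) (hw : ¬ r ^ (p - 1) ≡ 1 [MOD p ^ 2])
    (D : DataP p X.P X.ζ L) {r₀ : L} (hg : GoodU D r₀) {ρ : X.P.adicCompletion F}
    (hρ : D.pl.Has r₀ ρ) (h1 : Valued.v ρ = (1 : ℤᵐ⁰)) (h1' : Valued.v (ρ + 1) = (1 : ℤᵐ⁰))
    (h : Rc r F r₀ 0 ∨ Rc r F r₀⁻¹ 0 ∨ (Rc r F r₀ 1 ∧ Valued.v (ρ - 1) = (1 : ℤᵐ⁰))) : False := by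
  have hp : p.Prime := Fact.out
  have hp1 : p - 1 < p := by have := hp.pos; omega
  have hp1' : p - 1 + 1 = p := by have := hp.pos; omega
  obtain ⟨c, hc, hpv, g, hg0, hcg⟩ := D.quot r₀ hg.2.1 hg.2.2 hg.1 1 (p - 1) hp.one_lt hp1
  rw [pow_one] at hcg
  obtain ⟨m, hm, hm0, hm2, hm1⟩ := exists_m hp X.h2 X.loc h1 h1'
  have hzu : ∀ (w : HeightOneSpectrum (𝓞 F)) (i : ℕ),
      Valued.v (algebraMap F (w.adicCompletion F) X.ζ ^ i) = (1 : ℤᵐ⁰) := by
    intro w i
    rw [← map_pow, Fer.val_alg']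
    exact Fer.zeta_unit hp X.hζ w i
  -- at `P`
  have hP : ∃ t : F, t ≠ 0 ∧ X.P.valuation F (c * t ^ p - X.ζ ^ m) ≤ WithZero.exp (-2 : ℤ) := by
    have hz : ∀ i : ℕ, Valued.v (algebraMap F (X.P.adicCompletion F) X.ζ ^ i - 1) < (1 : ℤᵐ⁰) := by
      intro i
      induction i with
      | zero => rw [pow_zero, sub_self, map_zero]; exact zero_lt_one
      | succ i ih =>
        have h2 : algebraMap F (X.P.adicCompletion F) X.ζ ^ (i + 1) - 1 =
            algebraMap F (X.P.adicCompletion F) X.ζ ^ i *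
              (algebraMap F (X.P.adicCompletion F) X.ζ - 1) +
            (algebraMap F (X.P.adicCompletion F) X.ζ ^ i - 1) := by ring
        rw [h2]
        refine (Valuation.map_add _ _ _).trans_lt (max_lt ?_ ih)
        rw [map_mul, hzu X.P i, one_mul, X.loc.val_pi, ← WithZero.exp_zero, WithZero.exp_lt_exp]
        norm_num
    have hN : ∀ i : ℕ, Valued.v (ρ + algebraMap F (X.P.adicCompletion F) X.ζ ^ i) = (1 : ℤᵐ⁰) := by
      intro i
      have h2 : ρ + algebraMap F (X.P.adicCompletion F) X.ζ ^ i =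
          (ρ + 1) + (algebraMap F (X.P.adicCompletion F) X.ζ ^ i - 1) := by ring
      rw [h2]
      exact fcf_add h1' (hz i)
    refine fcf_step hp.ne_zero D.base hc (hρ.add (D.base X.ζ)) (hρ.add (D.base (X.ζ ^ (p - 1))))
      ?_ ?_ hcg ?_
    · simpa using hN 1
    · rw [map_pow]
      exact hN (p - 1)
    · rw [map_pow, map_pow]
      exact hm
  -- away from `P`
  have hwp : ∀ w : HeightOneSpectrum (𝓞 F), (r : 𝓞 F) ∈ w.asIdeal → (p : 𝓞 F) ∉ w.asIdeal := by
    intro w hrw hpw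
    have hcop : IsCoprime (r : ℤ) (p : ℤ) :=
      Nat.isCoprime_iff_coprime.2 ((Nat.coprime_primes hr hp).2 hrp)
    obtain ⟨a, b, hab⟩ := hcop
    have h2 : (a : 𝓞 F) * (r : 𝓞 F) + (b : 𝓞 F) * (p : 𝓞 F) = 1 := by
      exact_mod_cast congrArg (fun n : ℤ => (n : 𝓞 F)) hab
    exact w.isPrime.ne_top ((Ideal.eq_top_iff_one _).2 (h2 ▸ w.asIdeal.add_mem
      (w.asIdeal.mul_mem_left _ hrw) (w.asIdeal.mul_mem_left _ hpw)))
  have hone : ∀ (w : HeightOneSpectrum (𝓞 F)), (r : 𝓞 F) ∈ w.asIdeal →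
      Valued.v (1 + algebraMap F (w.adicCompletion F) X.ζ) = (1 : ℤᵐ⁰) := by
    intro w hrw
    have h2 := Fer.away_unit' hp X.hζ w (hwp w hrw) (j := 2) (by
      intro h3
      exact X.h2 ((Nat.prime_dvd_prime_iff_eq hp Nat.prime_two).1 h3))
    have h3 := Fer.away_unit' hp X.hζ w (hwp w hrw) (j := 1) (by
      intro h3
      exact hp.one_lt.ne' (Nat.dvd_one.1 h3))
    have h4 : algebraMap F (w.adicCompletion F) X.ζ ^ 2 - 1 =
        (algebraMap F (w.adicCompletion F) X.ζ ^ 1 - 1) *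
          (1 + algebraMap F (w.adicCompletion F) X.ζ) := by ring
    rw [h4, map_mul, h3, one_mul] at h2
    exact h2
  have hzp : ∀ w : HeightOneSpectrum (𝓞 F), algebraMap F (w.adicCompletion F) X.ζ ^ (p - 1) *
      algebraMap F (w.adicCompletion F) X.ζ = 1 := by
    intro w
    rw [← pow_succ, hp1', ← map_pow, X.hζ.pow_eq_one, map_one]
  rcases h with h | h | ⟨h, hρ1⟩
  · refine hw (X.wieferich hr hrp hc hpv hm2 hP fun w hrw => ?_)
    obtain ⟨Q, hQ, ρ', hρ', hv⟩ := h w hrw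
    rw [Int.cast_zero, sub_zero] at hv
    set z := algebraMap F (w.adicCompletion F) X.ζ with hzdef
    have h2 : ∃ t : F, t ≠ 0 ∧ w.valuation F (c * t ^ p - X.ζ ^ 2) ≤ WithZero.exp (-1 : ℤ) := by
      refine fcf_step hp.ne_zero hQ hc (hρ'.add (hQ X.ζ)) (hρ'.add (hQ (X.ζ ^ (p - 1)))) ?_ ?_
        hcg ?_
      · rw [add_comm]
        exact fcf_add (by simpa using hzu w 1) hv
      · rw [add_comm, map_pow]
        exact fcf_add (hzu w (p - 1)) hv
      · rw [map_pow, map_pow, ← hzdef]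
        have h3 : ρ' + z - z ^ 2 * (ρ' + z ^ (p - 1)) = ρ' * (1 - z ^ 2) := by
          have h4 : z ^ 2 * z ^ (p - 1) = z := by
            rw [show z ^ 2 * z ^ (p - 1) = (z ^ (p - 1) * z) * z by ring, hzp w, one_mul]
          rw [mul_add, h4]
          ring
        rw [h3, map_mul]
        exact fcf_lt (fcf_mul hv ((Valuation.map_sub _ _ _).trans
          (max_le (map_one _).le (hzu w 2).le)))
    obtain ⟨t, ht, ht2⟩ := h2
    exact ⟨t, ht, fcf_lt' ht2⟩
  · refine hw (X.wieferich hr hrp hc hpv hm0 hP fun w hrw => ?_)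
    obtain ⟨Q, hQ, ρ', hρ', hv⟩ := h w hrw
    rw [Int.cast_zero, sub_zero] at hv
    set z := algebraMap F (w.adicCompletion F) X.ζ with hzdef
    have hr0 : r₀ ≠ 0 := by
      have := hg.1.1 0
      rwa [map_zero] at this
    have h2 : ∃ t : F, t ≠ 0 ∧ w.valuation F (c * t ^ p - X.ζ ^ 0) ≤ WithZero.exp (-1 : ℤ) := by
      have h3 : 1 + algebraMap F L X.ζ * r₀⁻¹ = algebraMap F L c * g ^ p *
          (1 + algebraMap F L (X.ζ ^ (p - 1)) * r₀⁻¹) := by
        have h4 : 1 + algebraMap F L X.ζ * r₀⁻¹ = (r₀ + algebraMap F L X.ζ) * r₀⁻¹ := by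
          rw [add_mul, mul_inv_cancel₀ hr0]
        have h5 : 1 + algebraMap F L (X.ζ ^ (p - 1)) * r₀⁻¹ =
            (r₀ + algebraMap F L (X.ζ ^ (p - 1))) * r₀⁻¹ := by
          rw [add_mul, mul_inv_cancel₀ hr0]
        rw [h4, h5, hcg, mul_assoc]
      refine fcf_step hp.ne_zero hQ hc (Plc.has_one.add ((hQ X.ζ).mul hρ'))
        (Plc.has_one.add ((hQ (X.ζ ^ (p - 1))).mul hρ')) ?_ ?_ h3 ?_
      · refine fcf_add (map_one _) ?_
        rw [mul_comm, map_mul]
        exact fcf_mul hv (by simpa using (hzu w 1).le)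
      · refine fcf_add (map_one _) ?_
        rw [mul_comm, map_mul, map_pow]
        exact fcf_mul hv (hzu w (p - 1)).le
      · rw [map_pow, map_pow, ← hzdef]
        have h6 : 1 + z * ρ' - z ^ 0 * (1 + z ^ (p - 1) * ρ') = ρ' * (z - z ^ (p - 1)) := by ring
        rw [h6, map_mul]
        exact fcf_lt (fcf_mul hv ((Valuation.map_sub _ _ _).trans
          (max_le (by simpa using (hzu w 1).le) (hzu w (p - 1)).le)))
    obtain ⟨t, ht, ht2⟩ := h2
    exact ⟨t, ht, fcf_lt' ht2⟩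
  · refine hw (X.wieferich hr hrp hc hpv (hm1 hρ1) hP fun w hrw => ?_)
    obtain ⟨Q, hQ, ρ', hρ', hv⟩ := h w hrw
    rw [Int.cast_one] at hv
    set z := algebraMap F (w.adicCompletion F) X.ζ with hzdef
    have h2 : ∃ t : F, t ≠ 0 ∧ w.valuation F (c * t ^ p - X.ζ ^ 1) ≤ WithZero.exp (-1 : ℤ) := by
      refine fcf_step hp.ne_zero hQ hc (hρ'.add (hQ X.ζ)) (hρ'.add (hQ (X.ζ ^ (p - 1)))) ?_ ?_
        hcg ?_
      · have h3 : ρ' + z = (1 + z) + (ρ' - 1) := by ring
        rw [← hzdef, h3]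
        exact fcf_add (hone w hrw) hv
      · have h3 : ρ' + z ^ (p - 1) = z ^ (p - 1) * (1 + z) + (ρ' - 1) := by
          rw [mul_add, hzp w, mul_one]
          ring
        rw [map_pow, ← hzdef, h3]
        refine fcf_add ?_ hv
        rw [map_mul, hzu w (p - 1), one_mul]
        exact hone w hrw
      · rw [map_pow, map_pow, ← hzdef]
        have h3 : ρ' + z - z ^ 1 * (ρ' + z ^ (p - 1)) = (ρ' - 1) * (1 - z) := by
          have h4 : z ^ 1 * z ^ (p - 1) = 1 := by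
            rw [pow_one, mul_comm]
            exact hzp w
          rw [mul_add, h4]
          ring
        rw [h3, map_mul]
        exact fcf_lt (fcf_mul hv ((Valuation.map_sub _ _ _).trans
          (max_le (map_one _).le (by simpa using (hzu w 1).le))))
    obtain ⟨t, ht, ht2⟩ := h2
    exact ⟨t, ht, fcf_lt' ht2⟩

end

end Pool.Agent.Lib.MP_2f3286_ag.Fc
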