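import Pool.Agent.Lib.MP_2f3286_ag.Fc.UQ
import Pool.Agent.Lib.MP_2f3286_ag.Fer.KPow

/-!
# Elements of a number field of degree one which are `p`-th powers   (module KQ)

If the valuations of `c` at the primes of `F` are divisible by `p` and `p` does not divide the degree
of `F` over `k`, then the valuations at the primes of `k` are: every prime of `k` has a prime above it
whose ramification index is prime to `p`. Then `k_pow` for the extension `k` of `k`, as the class
number is one and the units are `1` and `-1`.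
-/

set_option autoImplicit false

open IsDedekindDomain NumberField
open scoped WithZero

namespace Pool.Agent.Lib.MP_2f3286_ag.Fc

open Pool.Agent.Lib.MP_2f3286_ag.Fer (Loc PV Plc Good)

/-- the valuations at the primes of `k` are divisible by `p` -/
theorem pv_down {p : ℕ} (hp : p.Prime) {k F : Type*} [Field k] [NumberField k]
    [Field F] [NumberField F] [Algebra k F]
    (hm : ¬ p ∣ Module.finrank k F) {c : k} (hc : c ≠ 0)
    (hF : ∀ Q : HeightOneSpectrum (𝓞 F), PV p Q (algebraMap k F c))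
    (w : HeightOneSpectrum (𝓞 k)) : PV p w c := by
  have hfd : FiniteDimensional k F := Module.Finite.of_restrictScalars_finite ℚ k F
  have hmax : w.asIdeal.IsMaximal := w.isMaximal
  have hsum := Ideal.sum_ramification_inertia (𝓞 F) k F (p := w.asIdeal) w.ne_bot
  obtain ⟨P, hP, hPe⟩ : ∃ P ∈ IsDedekindDomain.primesOverFinset w.asIdeal (𝓞 F),
      ¬ p ∣ Ideal.ramificationIdx' w.asIdeal P := by
    by_contra hcon
    push Not at hcon
    apply hm
    rw [← hsum]
    exact Finset.dvd_sum fun P hP => Dvd.dvd.mul_right (hcon P hP) _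
  obtain ⟨hP1, hP2⟩ := (IsDedekindDomain.mem_primesOverFinset_iff w.ne_bot _).mp hP
  have hP0 : P ≠ ⊥ := Ideal.ne_bot_of_liesOver_of_ne_bot w.ne_bot P
  obtain ⟨Q, hQP⟩ : ∃ Q : HeightOneSpectrum (𝓞 F), Q.asIdeal = P := ⟨⟨P, hP1, hP0⟩, rfl⟩
  have hQl : Q.asIdeal.LiesOver w.asIdeal := by
    rw [hQP]
    exact hP2
  obtain ⟨z, hz, hQ⟩ := hF Q
  rw [← HeightOneSpectrum.valuation_liesOver F w Q c, hQP] at hQ
  have hwc : w.valuation k c ≠ 0 := by
    rw [Valuation.ne_zero_iff]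
    exact hc
  have hQz : Q.valuation F z ≠ 0 := by
    rw [Valuation.ne_zero_iff]
    exact hz
  rw [← WithZero.exp_log hwc, ← WithZero.exp_log hQz, ← WithZero.exp_nsmul, ← WithZero.exp_nsmul,
    WithZero.exp_inj, nsmul_eq_mul, nsmul_eq_mul] at hQ
  have hd : (p : ℤ) ∣ WithZero.log (w.valuation k c) := by
    have h1 : (p : ℤ) ∣ (Ideal.ramificationIdx' w.asIdeal P : ℤ) * WithZero.log (w.valuation k c) :=
      ⟨_, hQ⟩
    refine ((Nat.prime_iff_prime_int.mp hp).dvd_or_dvd h1).resolve_left ?_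
    intro h2
    exact hPe (Int.natCast_dvd_natCast.mp h2)
  obtain ⟨t, ht⟩ := hd
  obtain ⟨π, hπ⟩ := w.valuation_exists_uniformizer k
  have hπ0 : π ≠ 0 := by
    rintro rfl
    rw [map_zero] at hπ
    exact WithZero.exp_ne_zero hπ.symm
  refine ⟨π ^ (-t), zpow_ne_zero _ hπ0, ?_⟩
  rw [map_zpow₀, hπ, ← WithZero.exp_zsmul, ← WithZero.exp_nsmul, ← WithZero.exp_log hwc,
    WithZero.exp_inj, ht]
  simp

/-- the class number is one -/
theorem cls_Q {k : Type*} [Field k] [NumberField k] (hk : Module.finrank ℚ k = 1) :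
    classNumber k = 1 := by
  rw [NumberField.classNumber_eq_one_iff]
  refine IsPrincipalIdealRing.of_surjective (Int.castRingHom (𝓞 k)) fun x => ?_
  obtain ⟨n, hn⟩ := int_Q hk x
  exact ⟨n, hn⟩

/-- the units are `p`-th powers -/
theorem unit_Q {p : ℕ} (hp : p.Prime) (h2 : p ≠ 2) {k : Type*} [Field k] [NumberField k]
    (hk : Module.finrank ℚ k = 1) (u : (𝓞 k)ˣ) : ∃ v : (𝓞 k)ˣ, v ^ p = u := by
  obtain ⟨n, hn⟩ := int_Q hk (u : 𝓞 k)
  obtain ⟨m, hm⟩ := int_Q hk ((u⁻¹ : (𝓞 k)ˣ) : 𝓞 k)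
  have h1 : ((n * m : ℤ) : 𝓞 k) = ((1 : ℤ) : 𝓞 k) := by
    push_cast
    rw [hn, hm]
    simp
  have h3 : n * m = 1 := Int.cast_injective h1
  rcases Int.isUnit_iff.mp (IsUnit.of_mul_eq_one m h3) with h | h
  · refine ⟨1, ?_⟩
    rw [one_pow]
    apply Units.ext
    rw [← hn, h]
    simp
  · refine ⟨-1, ?_⟩
    rw [(hp.odd_of_ne_two h2).neg_one_pow]
    apply Units.ext
    rw [← hn, h]
    simp

theorem k_pow_Q {p : ℕ} (hp : p.Prime) (h2 : p ≠ 2) {k F : Type*} [Field k] [NumberField k]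
    [Field F] [NumberField F] [Algebra k F] (hk : Module.finrank ℚ k = 1)
    (hm : ¬ p ∣ Module.finrank k F) {c : k} (hc : c ≠ 0)
    (hF : ∀ Q : HeightOneSpectrum (𝓞 F), PV p Q (algebraMap k F c)) : ∃ d : k, d ^ p = c := by
  refine Fer.k_pow (F := k) hp ?_ ?_ (unit_Q hp h2 hk) hc (pv_down hp hm hc hF)
  · rw [cls_Q hk]
    exact hp.one_lt.ne' ∘ Nat.dvd_one.mp
  · rw [Module.finrank_self]
    exact hp.one_lt.ne' ∘ Nat.dvd_one.mp

end Pool.Agent.Lib.MP_2f3286_ag.Fc
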