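import Pool.Agent.Lib.MP_2f3286_ag.Local
import Pool.Agent.Lib.MP_2f3286_ag.Fc.Defs
import Pool.Agent.Lib.MP_2f3286_ag.Fer.Tp.D

/-!
# Choice of the function
-/

set_option autoImplicit false

open IsDedekindDomain NumberField
open scoped WithZero

namespace Pool.Agent.Lib.MP_2f3286_ag.Fc

open Pool.Agent.Lib.MP_2f3286_ag.Fer (Loc PV Plc Good)
open Pool.Agent.Lib.MP_2f3286_ag.Fer.Tp (DataP GoodU)

theorem sel_add {R : Type*} [CommRing R] {Γ₀ : Type*} [LinearOrderedCommGroupWithZero Γ₀]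
    (v : Valuation R Γ₀) {a b c : R} (h : v a < 1) (h' : v b < 1) (e : c = a + b) : v c < 1 := by
  rw [e]
  exact lt_of_le_of_lt (v.map_add _ _) (max_lt h h')

theorem sel_pow {R : Type*} [CommRing R] {Γ₀ : Type*} [LinearOrderedCommGroupWithZero Γ₀]
    (v : Valuation R Γ₀) {a b : R} (hb : v b ≤ 1) (h : v (a - b) < 1) (p : ℕ) :
    v (a ^ p - b ^ p) < 1 := by
  have ha : v a ≤ 1 := by
    have e : a = (a - b) + b := by ring
    rw [e]
    exact (v.map_add _ _).trans (max_le h.le hb)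
  exact lt_of_le_of_lt (MP_2f3286_ag.val_pow_sub_pow_le v ha hb p) h

variable {p : ℕ} [Fact p.Prime] {F : Type*} [Field F] [NumberField F] (X : Cyc p F)
  {L : Type*} [Field L] [Algebra F L]

theorem select_r {r : ℕ} (hr : r = 2 ∨ (r = 3 ∧ p ≠ 3)) (hrp : r ≠ p)
    (D : DataP p X.P X.ζ L) {x y : L} (hxy : x ^ p + y ^ p = 1)
    (hx : ∀ c : F, x ≠ algebraMap F L c) (hy : ∀ c : F, y ≠ algebraMap F L c)
    (hyx : ∀ c : F, y / x ≠ algebraMap F L c) (hxW : x ∈ D.W) (hyW : y ∈ D.W)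
    {a b : X.P.adicCompletion F} (ha : D.pl.Has x a) (hb : D.pl.Has y b)
    (hva : Valued.v a = (1 : ℤᵐ⁰)) (hvb : Valued.v b = (1 : ℤᵐ⁰))
    (hry : Rc r F x⁻¹ 0 ∨ ∃ n n' : ℕ, n < r ∧ n' < r ∧
      ∀ w : HeightOneSpectrum (𝓞 F), (r : 𝓞 F) ∈ w.asIdeal → ∃ Q : Plc L (w.adicCompletion F),
        (∀ a : F, Q.Has (algebraMap F L a) (algebraMap F (w.adicCompletion F) a)) ∧
        (∃ ρ : w.adicCompletion F, Q.Has x ρ ∧ Valued.v (ρ - n) < (1 : ℤᵐ⁰)) ∧
        ∃ ρ : w.adicCompletion F, Q.Has y ρ ∧ Valued.v (ρ - n') < (1 : ℤᵐ⁰)) :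
    ∃ (r₀ : L) (ρ : X.P.adicCompletion F), GoodU D r₀ ∧ D.pl.Has r₀ ρ ∧
      Valued.v ρ = (1 : ℤᵐ⁰) ∧ Valued.v (ρ + 1) = (1 : ℤᵐ⁰) ∧
      (Rc r F r₀ 0 ∨ Rc r F r₀⁻¹ 0 ∨ (Rc r F r₀ 1 ∧ Valued.v (ρ - 1) = (1 : ℤᵐ⁰))) := by
  have hp : p.Prime := Fact.out
  have hodd : Odd p := hp.odd_of_ne_two X.h2
  have hp0 : p ≠ 0 := hp.ne_zero
  have hPV1 : ∀ w : HeightOneSpectrum (𝓞 F), w ≠ X.P → PV p w (1 : F) := fun w _ =>
    ⟨1, one_ne_zero, by rw [map_one, one_pow]⟩
  have hxn : (-x) ^ p + 1 = y ^ p := by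
    rw [hodd.neg_pow]
    linear_combination -hxy
  have hyn : (-y) ^ p + 1 = x ^ p := by
    rw [hodd.neg_pow]
    linear_combination -hxy
  have gx : GoodU D (-x) := by
    refine ⟨⟨fun c hc => hx (-c) ?_, 1, one_ne_zero, hPV1, y, ?_⟩, D.neg_mem hxW,
      by rw [hxn]; exact D.pow_mem hyW p⟩
    · rw [map_neg, ← hc, neg_neg]
    · rw [map_one, one_mul, hxn]
  have gy : GoodU D (-y) := by
    refine ⟨⟨fun c hc => hy (-c) ?_, 1, one_ne_zero, hPV1, x, ?_⟩, D.neg_mem hyW,
      by rw [hyn]; exact D.pow_mem hxW p⟩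
    · rw [map_neg, ← hc, neg_neg]
    · rw [map_one, one_mul, hyn]
  have hab : a ^ p + b ^ p = 1 := by
    have h1 : D.pl.Has (x ^ p + y ^ p) (a ^ p + b ^ p) := (ha.pow p).add (hb.pow p)
    rw [hxy] at h1
    exact h1.unique Plc.has_one
  have h3 : Valued.v (a + b - 1) < (1 : ℤᵐ⁰) := by
    have f1 : Valued.v (a ^ p - a) < (1 : ℤᵐ⁰) := Fer.lt_one_iff.2 (X.loc.frob hp hva.le)
    have f2 : Valued.v (b ^ p - b) < (1 : ℤᵐ⁰) := Fer.lt_one_iff.2 (X.loc.frob hp hvb.le)
    rw [← Valuation.map_neg] at f1 f2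
    exact sel_add Valued.v f1 f2 (by linear_combination hab)
  have unit_a : Valued.v (-a + 1) = (1 : ℤᵐ⁰) := by
    have e : -a + 1 = b - (a + b - 1) := by ring
    rw [e, Valuation.map_sub_eq_of_lt_left, hvb]
    rw [hvb]
    exact h3
  have unit_b : Valued.v (-b + 1) = (1 : ℤᵐ⁰) := by
    have e : -b + 1 = a - (a + b - 1) := by ring
    rw [e, Valuation.map_sub_eq_of_lt_left, hva]
    rw [hva]
    exact h3
  have hwr : ∀ w : HeightOneSpectrum (𝓞 F), (r : 𝓞 F) ∈ w.asIdeal →
      Valued.v ((r : ℕ) : w.adicCompletion F) < (1 : ℤᵐ⁰) := by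
    intro w hw
    have e : algebraMap (𝓞 F) F ((r : ℕ) : 𝓞 F) = ((r : ℕ) : F) := map_natCast _ r
    have h1 : w.valuation F ((r : ℕ) : F) < 1 := by
      rw [← e]
      exact (HeightOneSpectrum.valuation_lt_one_iff_mem (K := F) w (r : 𝓞 F)).mpr hw
    rw [← MP_2f3286_ag.val_alg w, map_natCast] at h1
    exact h1
  rcases hry with h | ⟨n, n', hn, hn', h⟩
  · refine ⟨-x, -a, gx, ha.neg, by rw [Valuation.map_neg, hva], unit_a, Or.inr (Or.inl ?_)⟩
    intro w hw
    obtain ⟨Q, hQ, ρ, hρ, hv⟩ := h w hw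
    refine ⟨Q, hQ, -ρ, ?_, ?_⟩
    · rw [inv_neg]
      exact hρ.neg
    · rw [Int.cast_zero, sub_zero] at hv ⊢
      rw [Valuation.map_neg]
      exact hv
  · -- the sum of the `p`-th powers of the values is `1`
    have hsum : ∀ (w : HeightOneSpectrum (𝓞 F)) (Q : Plc L (w.adicCompletion F))
        (ρ ρ' : w.adicCompletion F), Q.Has x ρ → Q.Has y ρ' → ρ ^ p + ρ' ^ p = 1 := by
      intro w Q ρ ρ' h1 h2
      have h4 : Q.Has (x ^ p + y ^ p) (ρ ^ p + ρ' ^ p) := (h1.pow p).add (h2.pow p)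
      rw [hxy] at h4
      exact h4.unique Plc.has_one
    rcases Nat.eq_zero_or_pos n with hn0 | hn0
    · -- `x = 0 mod r`
      refine ⟨-x, -a, gx, ha.neg, by rw [Valuation.map_neg, hva], unit_a, Or.inl ?_⟩
      intro w hw
      obtain ⟨Q, hQ, ⟨ρ, hρ, hv⟩, -⟩ := h w hw
      refine ⟨Q, hQ, -ρ, hρ.neg, ?_⟩
      rw [hn0, Nat.cast_zero, sub_zero] at hv
      rw [Int.cast_zero, sub_zero, Valuation.map_neg]
      exact hv
    · by_cases hn1 : n = 1
      · -- `x = 1 mod r`
        refine ⟨-y, -b, gy, hb.neg, by rw [Valuation.map_neg, hvb], unit_b, Or.inl ?_⟩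
        intro w hw
        obtain ⟨Q, hQ, ⟨ρ, hρ, hv⟩, ρ', hρ', -⟩ := h w hw
        refine ⟨Q, hQ, -ρ', hρ'.neg, ?_⟩
        rw [Int.cast_zero, sub_zero, Valuation.map_neg]
        rw [hn1, Nat.cast_one] at hv
        have h1 : Valued.v (ρ ^ p - 1 ^ p) < (1 : ℤᵐ⁰) := sel_pow Valued.v (map_one _).le hv p
        have h2 := hsum w Q ρ ρ' hρ hρ'
        have h4 : ρ' ^ p = -(ρ ^ p - 1 ^ p) := by
          rw [one_pow]
          linear_combination h2
        have h5 : Valued.v (ρ' ^ p) < (1 : ℤᵐ⁰) := by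
          rw [h4, Valuation.map_neg]
          exact h1
        rw [map_pow] at h5
        exact (pow_lt_one_iff hp0).mp h5
      · -- `r = 3`, `x = - 1 mod r`
        have hr3 : r = 3 := by
          rcases hr with h1 | ⟨h1, _⟩
          · omega
          · exact h1
        have hp3 : p ≠ 3 := by
          rcases hr with h1 | ⟨_, h1⟩
          · omega
          · exact h1
        have hn2 : n = 2 := by omega
        have key : ∀ w : HeightOneSpectrum (𝓞 F), (r : 𝓞 F) ∈ w.asIdeal →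
            ∃ Q : Plc L (w.adicCompletion F),
              (∀ a : F, Q.Has (algebraMap F L a) (algebraMap F (w.adicCompletion F) a)) ∧
              (∃ ρ : w.adicCompletion F, Q.Has x ρ ∧ Valued.v (ρ + 1) < (1 : ℤᵐ⁰)) ∧
              ∃ ρ : w.adicCompletion F, Q.Has y ρ ∧ Valued.v (ρ + 1) < (1 : ℤᵐ⁰) := by
          intro w hw
          obtain ⟨Q, hQ, ⟨ρ, hρ, hv⟩, ρ', hρ', hv'⟩ := h w hw
          have w3 : Valued.v (3 : w.adicCompletion F) < (1 : ℤᵐ⁰) := by
            have h1 := hwr w hw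
            rw [hr3] at h1
            exact_mod_cast h1
          have hone : ¬ Valued.v (1 : w.adicCompletion F) < (1 : ℤᵐ⁰) := by
            rw [map_one]
            exact lt_irrefl _
          have hneg1 : Valued.v (-1 : w.adicCompletion F) ≤ (1 : ℤᵐ⁰) := by
            rw [Valuation.map_neg, map_one]
          have h1 : Valued.v (ρ + 1) < (1 : ℤᵐ⁰) := by
            refine sel_add Valued.v hv w3 ?_
            rw [hn2]
            push_cast
            ring
          have h2 : Valued.v (ρ ^ p - (-1) ^ p) < (1 : ℤᵐ⁰) :=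
            sel_pow Valued.v hneg1 (by rw [sub_neg_eq_add]; exact h1) p
          rw [hodd.neg_pow, one_pow] at h2
          have h4 := hsum w Q ρ ρ' hρ hρ'
          -- `ρ' ^ p = - 1`
          have h5 : Valued.v (ρ' ^ p + 1) < (1 : ℤᵐ⁰) := by
            rw [← Valuation.map_neg] at h2
            exact sel_add Valued.v h2 w3 (by linear_combination h4)
          refine ⟨Q, hQ, ⟨ρ, hρ, h1⟩, ρ', hρ', ?_⟩
          have hn'3 : n' = 0 ∨ n' = 1 ∨ n' = 2 := by omega
          rcases hn'3 with h6 | h6 | h6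
          · exfalso
            rw [h6, Nat.cast_zero] at hv'
            have h7 : Valued.v (ρ' ^ p - 0 ^ p) < (1 : ℤᵐ⁰) :=
              sel_pow Valued.v (by rw [map_zero]; exact zero_le_one) hv' p
            rw [zero_pow hp0, ← Valuation.map_neg] at h7
            exact hone (sel_add Valued.v h5 h7 (by ring))
          · exfalso
            rw [h6, Nat.cast_one] at hv'
            have h7 : Valued.v (ρ' ^ p - 1 ^ p) < (1 : ℤᵐ⁰) :=
              sel_pow Valued.v (map_one _).le hv' p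
            rw [one_pow] at h7
            have h8 : Valued.v (2 : w.adicCompletion F) < (1 : ℤᵐ⁰) := by
              rw [← Valuation.map_neg] at h7
              exact sel_add Valued.v h5 h7 (by ring)
            rw [← Valuation.map_neg] at h8
            exact hone (sel_add Valued.v w3 h8 (by norm_num))
          · refine sel_add Valued.v hv' w3 ?_
            rw [h6]
            push_cast
            ring
        have hle : ∀ c : X.P.adicCompletion F, Valued.v c = (1 : ℤᵐ⁰) →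
            ¬ Valued.v (-c - 1) < (1 : ℤᵐ⁰) → Valued.v (-c - 1) = (1 : ℤᵐ⁰) := by
          intro c hc h1
          refine le_antisymm ?_ (not_lt.mp h1)
          refine (Valued.v.map_sub _ _).trans (max_le ?_ (map_one _).le)
          rw [Valuation.map_neg, hc]
        by_cases ca : Valued.v (-a - 1) < (1 : ℤᵐ⁰)
        · by_cases cb : Valued.v (-b - 1) < (1 : ℤᵐ⁰)
          · exfalso
            have h1 : Valued.v ((-a - 1) + (-b - 1)) < (1 : ℤᵐ⁰) :=
              sel_add Valued.v ca cb rfl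
            have h2 : Valued.v (((3 : ℤ) : X.P.adicCompletion F)) < (1 : ℤᵐ⁰) := by
              rw [← Valuation.map_neg]
              refine sel_add Valued.v h1 h3 ?_
              push_cast
              ring
            have h4 : ¬ (p : ℤ) ∣ 3 := by
              intro h5
              have h6 : p ∣ 3 := by exact_mod_cast h5
              rcases (Nat.prime_three.eq_one_or_self_of_dvd p h6) with h7 | h7
              · exact hp.one_lt.ne' h7
              · exact hp3 h7
            rw [X.loc.int_eq_one hp h4] at h2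
            exact lt_irrefl _ h2
          · refine ⟨-y, -b, gy, hb.neg, by rw [Valuation.map_neg, hvb], unit_b,
              Or.inr (Or.inr ⟨?_, hle b hvb cb⟩)⟩
            intro w hw
            obtain ⟨Q, hQ, -, ρ', hρ', hv'⟩ := key w hw
            refine ⟨Q, hQ, -ρ', hρ'.neg, ?_⟩
            have e : -ρ' - ((1 : ℤ) : w.adicCompletion F) = -(ρ' + 1) := by
              push_cast
              ring
            rw [e, Valuation.map_neg]
            exact hv'
        · refine ⟨-x, -a, gx, ha.neg, by rw [Valuation.map_neg, hva], unit_a,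
            Or.inr (Or.inr ⟨?_, hle a hva ca⟩)⟩
          intro w hw
          obtain ⟨Q, hQ, ⟨ρ, hρ, hv⟩, -⟩ := key w hw
          refine ⟨Q, hQ, -ρ, hρ.neg, ?_⟩
          have e : -ρ - ((1 : ℤ) : w.adicCompletion F) = -(ρ + 1) := by
            push_cast
            ring
          rw [e, Valuation.map_neg]
          exact hv

end Pool.Agent.Lib.MP_2f3286_ag.Fc
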