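import Pool.Agent.Lib.MP_2f3286_ag.Fc.Defs

/-!
# Number fields of degree one: primes and residue fields   (module UQ)

All elements of `k` are rational numbers, all elements of `𝓞 k` are integers. A prime ideal which
contains the prime number `r` consists of the multiples of `r`.
-/

set_option autoImplicit false

open IsDedekindDomain NumberField
open scoped WithZero

namespace Pool.Agent.Lib.MP_2f3286_ag.Fc

open Pool.Agent.Lib.MP_2f3286_ag.Fer (Loc PV Plc Good)

variable {k : Type*} [Field k] [NumberField k]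

/-- all elements are rational numbers -/
theorem rat_Q (hk : Module.finrank ℚ k = 1) (x : k) : ∃ q : ℚ, algebraMap ℚ k q = x := by
  have h1 : x ∈ (⊤ : Subalgebra ℚ k) := Algebra.mem_top
  rw [← Subalgebra.bot_eq_top_of_finrank_eq_one hk, Algebra.mem_bot] at h1
  exact h1

/-- all integers are rational integers -/
theorem int_Q (hk : Module.finrank ℚ k = 1) (x : 𝓞 k) : ∃ n : ℤ, (n : 𝓞 k) = x := by
  obtain ⟨q, hq⟩ := rat_Q hk (x : k)
  have h1 : IsIntegral ℤ (algebraMap ℚ k q) := by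
    rw [hq]
    exact RingOfIntegers.isIntegral_coe x
  rw [isIntegral_algebraMap_iff (algebraMap ℚ k).injective] at h1
  obtain ⟨n, hn⟩ := IsIntegrallyClosed.isIntegral_iff.mp h1
  refine ⟨n, ?_⟩
  apply RingOfIntegers.coe_injective
  rw [show algebraMap (𝓞 k) k x = algebraMap ℚ k q from hq.symm, ← hn]
  simp

omit [NumberField k] in
/-- a rational integer in a prime ideal which contains `r` is a multiple of `r` -/
theorem mem_Q {r : ℕ} (hr : r.Prime) {v : HeightOneSpectrum (𝓞 k)} (h : (r : 𝓞 k) ∈ v.asIdeal)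
    (n : ℤ) : (n : 𝓞 k) ∈ v.asIdeal ↔ (r : ℤ) ∣ n := by
  constructor
  · intro hn
    by_contra hd
    have h1 : IsCoprime (r : ℤ) n :=
      (Prime.coprime_iff_not_dvd (Nat.prime_iff_prime_int.mp hr)).mpr hd
    obtain ⟨a, b, hab⟩ := h1
    apply v.isPrime.ne_top
    rw [Ideal.eq_top_iff_one]
    have h2 : (1 : 𝓞 k) = (a : 𝓞 k) * (r : 𝓞 k) + (b : 𝓞 k) * (n : 𝓞 k) := by
      have h3 := congrArg (fun m : ℤ => (m : 𝓞 k)) hab
      push_cast at h3
      exact h3.symm
    rw [h2]
    exact add_mem (Ideal.mul_mem_left _ _ h) (Ideal.mul_mem_left _ _ hn)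
  · rintro ⟨m, rfl⟩
    push_cast
    exact Ideal.mul_mem_right _ _ h

theorem unique_Q (hk : Module.finrank ℚ k = 1) {r : ℕ}
    (hr : r.Prime) {v v' : HeightOneSpectrum (𝓞 k)} (h : (r : 𝓞 k) ∈ v.asIdeal)
    (h' : (r : 𝓞 k) ∈ v'.asIdeal) : v = v' := by
  apply HeightOneSpectrum.ext
  ext x
  obtain ⟨n, rfl⟩ := int_Q hk x
  rw [mem_Q hr h, mem_Q hr h']

/-- the valuation of a rational integer -/
theorem val_int_Q {r : ℕ} (hr : r.Prime) {v : HeightOneSpectrum (𝓞 k)}
    (h : (r : 𝓞 k) ∈ v.asIdeal) (n : ℤ) : v.valuation k (n : k) < 1 ↔ (r : ℤ) ∣ n := by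
  have h1 := v.valuation_lt_one_iff_mem (K := k) (n : 𝓞 k)
  rw [mem_Q hr h] at h1
  rw [← h1]
  simp

theorem val_int_le_Q {v : HeightOneSpectrum (𝓞 k)} (n : ℤ) : v.valuation k (n : k) ≤ 1 := by
  have h1 := v.valuation_le_one (K := k) (n : 𝓞 k)
  simpa using h1

theorem resid_Q (hk : Module.finrank ℚ k = 1) {r : ℕ}
    (hr : r.Prime) {v : HeightOneSpectrum (𝓞 k)} (h : (r : 𝓞 k) ∈ v.asIdeal)
    {y : v.adicCompletion k} (hy : Valued.v y ≤ (1 : ℤᵐ⁰)) :
    ∃ n : ℕ, n < r ∧ Valued.v (y - n) < (1 : ℤᵐ⁰) := by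
  obtain ⟨x, hx⟩ := MP_2f3286_ag.exists_approx v y 1
  have hx1 : Valued.v (y - algebraMap k (v.adicCompletion k) x) < (1 : ℤᵐ⁰) := by
    refine lt_of_le_of_lt hx ?_
    rw [← WithZero.exp_zero, WithZero.exp_lt_exp]
    norm_num
  have hvx : v.valuation k x ≤ 1 := by
    rw [← MP_2f3286_ag.val_alg]
    have e : algebraMap k (v.adicCompletion k) x =
        y - (y - algebraMap k (v.adicCompletion k) x) := by ring
    rw [e]
    exact le_trans (Valuation.map_sub _ _ _) (max_le hy hx1.le)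
  obtain ⟨q, hq⟩ := rat_Q hk x
  have hden : ((q.den : ℤ) : k) ≠ 0 := by
    exact_mod_cast q.den_nz
  have hxq : x * ((q.den : ℤ) : k) = (q.num : k) := by
    rw [← hq]
    have e1 := Rat.mul_den_eq_num q
    have e2 := congrArg (algebraMap ℚ k) e1
    rw [map_mul] at e2
    simpa using e2
  have hrd : ¬ (r : ℤ) ∣ (q.den : ℤ) := by
    intro hd
    have hn : ¬ (r : ℤ) ∣ q.num := by
      intro hn
      have h2 : r ∣ q.num.natAbs := Int.natCast_dvd.mp hn
      have h3 : r ∣ q.den := Int.natCast_dvd_natCast.mp hd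
      have h4 := Nat.dvd_gcd h2 h3
      rw [q.reduced] at h4
      exact hr.one_lt.ne' (Nat.dvd_one.mp h4)
    have h5 : v.valuation k (q.num : k) < 1 := by
      rw [← hxq, map_mul]
      calc v.valuation k x * v.valuation k ((q.den : ℤ) : k)
          ≤ 1 * v.valuation k ((q.den : ℤ) : k) := mul_le_mul_left hvx _
        _ < 1 := by
          rw [one_mul]
          exact (val_int_Q hr h _).mpr hd
    exact hn ((val_int_Q hr h _).mp h5)
  have hcop : IsCoprime (r : ℤ) (q.den : ℤ) :=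
    (Prime.coprime_iff_not_dvd (Nat.prime_iff_prime_int.mp hr)).mpr hrd
  obtain ⟨a, b, hab⟩ := hcop
  have hr0 : (0 : ℤ) < r := by exact_mod_cast hr.pos
  set m : ℤ := (b * q.num) % r with hm
  have hm0 : 0 ≤ m := Int.emod_nonneg _ hr0.ne'
  have hmr : m < r := Int.emod_lt_of_pos _ hr0
  obtain ⟨n, hn⟩ := Int.eq_ofNat_of_zero_le hm0
  refine ⟨n, ?_, ?_⟩
  · rw [hn] at hmr
    exact_mod_cast hmr
  · have hdvd : (r : ℤ) ∣ q.num - m * q.den := by
      have h6 : (r : ℤ) ∣ b * q.num - m := by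
        rw [hm]
        exact Int.dvd_self_sub_emod
      obtain ⟨t, ht⟩ := h6
      refine ⟨a * q.num + t * q.den, ?_⟩
      linear_combination q.num * hab.symm + (q.den : ℤ) * ht
    have h7 : v.valuation k (x - (m : k)) < 1 := by
      have h8 : v.valuation k ((q.den : ℤ) : k) = 1 := by
        refine le_antisymm (val_int_le_Q _) ?_
        rw [← not_lt, val_int_Q hr h]
        exact hrd
      have h9 : (x - (m : k)) * ((q.den : ℤ) : k) = ((q.num - m * q.den : ℤ) : k) := by
        rw [sub_mul, hxq]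
        push_cast
        ring
      have h10 : v.valuation k ((x - (m : k)) * ((q.den : ℤ) : k)) < 1 := by
        rw [h9]
        exact (val_int_Q hr h _).mpr hdvd
      rwa [map_mul, h8, mul_one] at h10
    have e3 : y - (n : v.adicCompletion k) = (y - algebraMap k (v.adicCompletion k) x) +
        algebraMap k (v.adicCompletion k) (x - (m : k)) := by
      rw [map_sub, hn]
      simp
    rw [e3]
    refine lt_of_le_of_lt (Valuation.map_add _ _ _) (max_lt hx1 ?_)
    rw [MP_2f3286_ag.val_alg]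
    exact h7

end Pool.Agent.Lib.MP_2f3286_ag.Fc
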