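import Pool.Agent.Lib.MP_2f3286_ag.Fc.CycE
import Pool.Agent.Lib.MP_2f3286_ag.Fc.LFix
import Pool.Agent.Lib.MP_2f3286_ag.Fc.KQ
import Pool.Agent.Lib.MP_2f3286_ag.Fc.UQ
import Pool.Agent.Lib.MP_2f3286_ag.Fc.FcF
import Pool.Agent.Lib.MP_2f3286_ag.Fc.Sel
import Pool.Agent.Lib.MP_2f3286_ag.Gl.FullK
import Pool.Agent.Lib.MP_2f3286_ag.Fer.Fin

/-!
# The first case for sections, over the field of rational numbers
-/

set_option autoImplicit false

open IsDedekindDomain NumberField
open scoped WithZero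

namespace Pool.Agent.Lib.MP_2f3286_ag.Fc

open Pool.Agent.Lib.MP_2f3286_ag.Fer
open Pool.Agent.Lib.MP_2f3286_ag.Fer.Tp (DataP GoodU z0_place exists_plc)
open Pool.Agent.Lib.MP_2f3286_bir (IsPlaceOf)
open Pool.Agent.Lib.MP_2f3286_ag.Pt (DivAt)
open Pool.Agent.Lib.MP_2f3286_ag.Gl (divAt_int pv_zero3 const_of_fixed exists_dataP)

private theorem eq_one_of {C D : Type*} [Field C] [Field D] {v : Valuation C ℤᵐ⁰}
    {v' : Valuation D ℤᵐ⁰} (j : C →+* D) (hj : ∀ y, v' (j y) < (1 : ℤᵐ⁰) ↔ v y < (1 : ℤᵐ⁰))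
    {y : C} (hy : v y = 1) : v' (j y) = 1 := by
  refine le_antisymm ?_ (not_lt.1 fun h => ?_)
  · rw [← not_lt]
    intro h
    have h1 : v' (j y⁻¹) < 1 := by
      rw [map_inv₀, map_inv₀]
      exact inv_lt_one_of_one_lt₀ h
    have h2 := (hj _).1 h1
    rw [map_inv₀, hy, inv_one] at h2
    exact lt_irrefl _ h2
  · have h2 := (hj _).1 h
    rw [hy] at h2
    exact lt_irrefl _ h2

/-- if `A` is not near `0`, `1` or `∞`, its value and that of `1 - A` are units -/
private theorem unit_value {k K M : Type*} [Field k] [NumberField k] [Field K] [Algebra k K]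
    [Field M] [Algebra K M] [Algebra (AlgebraicClosure k) M]
    (s : Gal(AlgebraicClosure k/k) →* Gal(M/K))
    (v : HeightOneSpectrum (𝓞 k))
    (ι : AlgebraicClosure k →ₐ[k] AlgebraicClosure (v.adicCompletion k))
    (A' : ValuationSubring M) (φ : A' →+* AlgebraicClosure (v.adicCompletion k))
    (hφ : IsPlaceOf s (v.adicCompletion k)
      (ι : _ →+* AlgebraicClosure (v.adicCompletion k)) A' φ) {A : K} (hA0 : A ≠ 0)
    (hcon : ¬ ∃ B : K, (B = A ∨ B = 1 - A ∨ B = A⁻¹) ∧ ∃ (h : algebraMap K M B ∈ A')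
      (u : v.adicCompletion k), φ ⟨_, h⟩ = algebraMap _ _ u ∧ Valued.v u < (1 : ℤᵐ⁰)) :
    ∃ (h : algebraMap K M A ∈ A') (u : v.adicCompletion k), φ ⟨_, h⟩ = algebraMap _ _ u ∧
      Valued.v u = (1 : ℤᵐ⁰) ∧ Valued.v (1 - u) = (1 : ℤᵐ⁰) := by
  have hchar : CharZero (v.adicCompletion k) :=
    charZero_of_injective_algebraMap (algebraMap k (v.adicCompletion k)).injective
  have hval : ∀ (B : K) (h : algebraMap K M B ∈ A'), ∃ u : v.adicCompletion k,
      φ ⟨_, h⟩ = algebraMap _ _ u := fun B h => PD.fixed_value hφ (fun σ => (s σ).commutes B) h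
  have hAM : algebraMap K M A ≠ 0 := (_root_.map_ne_zero _).2 hA0
  have hmem : algebraMap K M A ∈ A' := by
    by_contra h1
    have h2 : (algebraMap K M A)⁻¹ ∈ A' := (A'.mem_or_inv_mem _).resolve_left h1
    have h3 : algebraMap K M A⁻¹ ∈ A' := by rwa [map_inv₀]
    have h4 : φ ⟨_, h3⟩ = 0 := by
      by_contra h5
      have h6 := hφ.2.1 _ h5
      apply h1
      have h7 : ((⟨algebraMap K M A⁻¹, h3⟩ : A') : M)⁻¹ = algebraMap K M A := by
        change (algebraMap K M A⁻¹)⁻¹ = _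
        rw [map_inv₀, inv_inv]
      rwa [h7] at h6
    exact hcon ⟨A⁻¹, Or.inr (Or.inr rfl), h3, 0, by rw [h4, map_zero], by
      rw [map_zero]; exact zero_lt_one⟩
  obtain ⟨u, hu⟩ := hval A hmem
  have h1 : (1 : ℤᵐ⁰) ≤ Valued.v u := not_lt.1 fun h => hcon ⟨A, Or.inl rfl, hmem, u, hu, h⟩
  have hu0 : u ≠ 0 := by
    rintro rfl
    rw [map_zero] at h1
    exact absurd h1 (not_le.2 zero_lt_one)
  have h2 : Valued.v u ≤ (1 : ℤᵐ⁰) := by
    rw [← not_lt]
    intro h
    have h3 : φ ⟨_, hmem⟩ ≠ 0 := by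
      rw [hu]
      exact (_root_.map_ne_zero _).2 hu0
    have h4 : (algebraMap K M A)⁻¹ ∈ A' := hφ.2.1 _ h3
    have h5 : algebraMap K M A⁻¹ ∈ A' := by rwa [map_inv₀]
    refine hcon ⟨A⁻¹, Or.inr (Or.inr rfl), h5, u⁻¹, ?_, ?_⟩
    · rw [map_inv₀ (algebraMap (v.adicCompletion k) _), ← hu]
      apply eq_inv_of_mul_eq_one_left
      rw [← map_mul, ← map_one φ]
      congr 1
      apply Subtype.ext
      change algebraMap K M A⁻¹ * algebraMap K M A = 1
      rw [map_inv₀, inv_mul_cancel₀ hAM]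
    · rw [map_inv₀]
      exact inv_lt_one_of_one_lt₀ h
  have hv : Valued.v u = (1 : ℤᵐ⁰) := le_antisymm h2 h1
  refine ⟨hmem, u, hu, hv, le_antisymm ?_ ?_⟩
  · refine (Valued.v.map_sub _ _).trans (max_le (map_one _).le hv.le)
  · rw [← not_lt]
    intro h
    have h6 : algebraMap K M (1 - A) ∈ A' := by
      rw [map_sub, map_one]
      exact sub_mem (one_mem _) hmem
    refine hcon ⟨1 - A, Or.inr (Or.inl rfl), h6, 1 - u, ?_, h⟩
    rw [map_sub (algebraMap (v.adicCompletion k) _), map_one, ← hu, ← map_one φ, ← map_sub φ]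
    congr 1
    apply Subtype.ext
    change algebraMap K M (1 - A) = 1 - algebraMap K M A
    rw [map_sub, map_one]

/-- the values of a solution over the prime `r` -/
private theorem value_r {k K M : Type*} [Field k] [NumberField k] [Field K] [Algebra k K]
    [Field M] [Algebra K M] [Algebra (AlgebraicClosure k) M] (hk : Module.finrank ℚ k = 1)
    (s : Gal(AlgebraicClosure k/k) →* Gal(M/K))
    {v : HeightOneSpectrum (𝓞 k)} {r : ℕ} (hr : r.Prime) (hv : (r : 𝓞 k) ∈ v.asIdeal)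
    (ι : AlgebraicClosure k →ₐ[k] AlgebraicClosure (v.adicCompletion k))
    (A' : ValuationSubring M) (φ : A' →+* AlgebraicClosure (v.adicCompletion k))
    (hφ : IsPlaceOf s (v.adicCompletion k)
      (ι : _ →+* AlgebraicClosure (v.adicCompletion k)) A' φ) {p : ℕ} (hp0 : p ≠ 0) {x y : M}
    (hx : ∀ σ, s σ x = x) (hy : ∀ σ, s σ y = y) (hxy : x ^ p + y ^ p = 1) (hx0 : x ≠ 0) :
    (∃ (h : x⁻¹ ∈ A') (u : v.adicCompletion k), φ ⟨_, h⟩ = algebraMap _ _ u ∧
      Valued.v u < (1 : ℤᵐ⁰)) ∨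
    ∃ (h : x ∈ A') (h' : y ∈ A') (n n' : ℕ) (u u' : v.adicCompletion k), n < r ∧ n' < r ∧
      φ ⟨_, h⟩ = algebraMap _ _ u ∧ Valued.v (u - n) < (1 : ℤᵐ⁰) ∧
      φ ⟨_, h'⟩ = algebraMap _ _ u' ∧ Valued.v (u' - n') < (1 : ℤᵐ⁰) := by
  have hchar : CharZero (v.adicCompletion k) :=
    charZero_of_injective_algebraMap (algebraMap k (v.adicCompletion k)).injective
  have hxi : ∀ σ, s σ x⁻¹ = x⁻¹ := fun σ => by rw [map_inv₀, hx]
  by_cases hmem : x ∈ A'
  · obtain ⟨u, hu⟩ := PD.fixed_value hφ hx hmem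
    by_cases hv1 : Valued.v u ≤ (1 : ℤᵐ⁰)
    · right
      have hyA : y ∈ A' := by
        have h1 : y ^ p ∈ A' := by
          have h2 : y ^ p = 1 - x ^ p := by linear_combination hxy
          rw [h2]
          exact sub_mem (one_mem _) (pow_mem hmem p)
        rcases A'.mem_or_inv_mem y with h2 | h2
        · exact h2
        · by_contra h3
          have h4 : A'.valuation y⁻¹ < 1 := by
            rcases lt_or_eq_of_le ((A'.valuation_le_one_iff _).2 h2) with h5 | h5
            · exact h5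
            · exfalso
              apply h3
              rw [← A'.valuation_le_one_iff]
              rw [map_inv₀] at h5
              rw [inv_eq_one.1 h5]
          have h5 : 1 < A'.valuation y := by
            rw [map_inv₀] at h4
            exact (inv_lt_one₀ (by
              rw [zero_lt_iff]
              intro h6
              rw [(Valuation.zero_iff _).1 h6] at h3
              exact h3 (zero_mem _))).1 h4
          have h6 : 1 < A'.valuation (y ^ p) := by
            rw [map_pow]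
            exact one_lt_pow₀ h5 hp0
          exact absurd ((A'.valuation_le_one_iff _).2 h1) (not_le.2 h6)
      obtain ⟨u', hu'⟩ := PD.fixed_value hφ hy hyA
      have hrel : u ^ p + u' ^ p = 1 := by
        apply (algebraMap (v.adicCompletion k) (AlgebraicClosure (v.adicCompletion k))).injective
        rw [map_add, map_pow, map_pow, map_one, ← hu, ← hu', ← map_pow, ← map_pow, ← map_add,
          ← map_one φ]
        congr 1
        exact Subtype.ext hxy
      have hv2 : Valued.v u' ≤ (1 : ℤᵐ⁰) := by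
        rw [← not_lt]
        intro h
        have h1 : (1 : ℤᵐ⁰) < Valued.v (u' ^ p) := by
          rw [map_pow]
          exact one_lt_pow₀ h hp0
        have h2 : u' ^ p = 1 - u ^ p := by linear_combination hrel
        rw [h2] at h1
        refine absurd ((Valued.v.map_sub _ _).trans (max_le (map_one _).le ?_)) (not_le.2 h1)
        rw [map_pow]
        exact pow_le_one₀ zero_le hv1
      obtain ⟨n, hn, hn1⟩ := resid_Q hk hr hv hv1
      obtain ⟨n', hn', hn1'⟩ := resid_Q hk hr hv hv2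
      exact ⟨hmem, hyA, n, n', u, u', hn, hn', hu, hn1, hu', hn1'⟩
    · left
      rw [not_le] at hv1
      have hu0 : u ≠ 0 := by
        rintro rfl
        rw [map_zero] at hv1
        exact absurd hv1 (not_lt.2 zero_le)
      have h3 : φ ⟨_, hmem⟩ ≠ 0 := by
        rw [hu]
        exact (_root_.map_ne_zero _).2 hu0
      have h4 : x⁻¹ ∈ A' := hφ.2.1 _ h3
      refine ⟨h4, u⁻¹, ?_, by
        rw [map_inv₀]
        exact inv_lt_one_of_one_lt₀ hv1⟩
      rw [map_inv₀ (algebraMap (v.adicCompletion k) _), ← hu]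
      apply eq_inv_of_mul_eq_one_left
      rw [← map_mul, ← map_one φ]
      congr 1
      exact Subtype.ext (inv_mul_cancel₀ hx0)
  · left
    have h2 : x⁻¹ ∈ A' := (A'.mem_or_inv_mem _).resolve_left hmem
    refine ⟨h2, 0, ?_, by rw [map_zero]; exact zero_lt_one⟩
    rw [map_zero (algebraMap (v.adicCompletion k) _)]
    by_contra h5
    have h6 := hφ.2.1 _ h5
    apply hmem
    have h7 : ((⟨x⁻¹, h2⟩ : A') : M)⁻¹ = x := inv_inv x
    rwa [h7] at h6

theorem fc_gen {p : ℕ} [Fact p.Prime] {F : Type*} [Field F] [NumberField F] (X : Cyc p F)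
    {r : ℕ} (hr : r = 2 ∨ (r = 3 ∧ p ≠ 3)) (hw : ¬ r ^ (p - 1) ≡ 1 [MOD p ^ 2])
    {k : Type*} [Field k] [NumberField k] [Algebra k F] (hk : Module.finrank ℚ k = 1)
    (hm : ¬ p ∣ Module.finrank k F)
    {K : Type*} [Field K] [Algebra k K]
    {M : Type*} [Field M] [Algebra K M] [Algebra.IsAlgebraic K M]
    [Algebra (AlgebraicClosure k) M] [Algebra k M]
    [IsScalarTower k K M] [IsScalarTower k (AlgebraicClosure k) M]
    [Algebra F (AlgebraicClosure k)] [IsScalarTower k F (AlgebraicClosure k)]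
    (𝒱 : Set (ValuationSubring M))
    (h𝒱 : ∀ V ∈ 𝒱, ∀ a : AlgebraicClosure k, algebraMap (AlgebraicClosure k) M a ∈ V)
    (hrad : ∀ ρ : M, ρ ≠ 0 → (∀ V ∈ 𝒱, DivAt p ρ V) → ∃ β : M, β ^ p = ρ)
    (A : K) (hA : ∀ c : k, A ≠ algebraMap k K c)
    (h : (∃ x y : K, x ^ p = A ∧ y ^ p = 1 - A) ∨
      ∃ (a b : ℤ) (B : K), ¬ (p : ℤ) ∣ a ∧
        ¬ (p : ℤ) ∣ b ∧ ¬ (p : ℤ) ∣ a + b ∧ A ^ a * (1 - A) ^ b = B ^ p)
    (s : Gal(AlgebraicClosure k/k) →* Gal(M/K)) (hs : Continuous s)
    (hsec : ∀ σ a, s σ (algebraMap (AlgebraicClosure k) M a) =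
      algebraMap (AlgebraicClosure k) M (σ a))
    (v : HeightOneSpectrum (𝓞 k)) (hv : (p : 𝓞 k) ∈ v.asIdeal)
    (ι : AlgebraicClosure k →ₐ[k] AlgebraicClosure (v.adicCompletion k))
    (A' : ValuationSubring M) (φ : A' →+* AlgebraicClosure (v.adicCompletion k))
    (hφ : IsPlaceOf s (v.adicCompletion k)
      (ι : _ →+* AlgebraicClosure (v.adicCompletion k)) A' φ)
    (v' : HeightOneSpectrum (𝓞 k)) (hv' : (r : 𝓞 k) ∈ v'.asIdeal)
    (ι' : AlgebraicClosure k →ₐ[k] AlgebraicClosure (v'.adicCompletion k))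
    (A'' : ValuationSubring M) (φ' : A'' →+* AlgebraicClosure (v'.adicCompletion k))
    (hφ' : IsPlaceOf s (v'.adicCompletion k)
      (ι' : _ →+* AlgebraicClosure (v'.adicCompletion k)) A'' φ') :
    ∃ B : K, (B = A ∨ B = 1 - A ∨ B = A⁻¹) ∧ ∃ (h : algebraMap K M B ∈ A')
      (u : v.adicCompletion k), φ ⟨_, h⟩ = algebraMap _ _ u ∧ Valued.v u < (1 : ℤᵐ⁰) := by
  classical
  by_contra hcon
  have hp : p.Prime := Fact.out
  have hp0 : p ≠ 0 := hp.ne_zero
  have hodd : Odd p := hp.odd_of_ne_two X.h2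
  have hrp : r.Prime := by
    rcases hr with rfl | ⟨rfl, -⟩
    · exact Nat.prime_two
    · exact Nat.prime_three
  have hrne : r ≠ p := by
    rcases hr with rfl | ⟨rfl, h3⟩
    · exact fun h => X.h2 h.symm
    · exact fun h => h3 h.symm
  have hA0 : A ≠ 0 := fun h0 => hA 0 (by rw [h0, map_zero])
  obtain ⟨hmA, u₀, hu₀, hu₁, hu₂⟩ := unit_value s v ι A' φ hφ hA0 hcon
  have hfin : FiniteDimensional k F := FiniteDimensional.right ℚ k F
  have hkF : Algebra.IsAlgebraic k F := inferInstance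
  have hFk : Algebra.IsAlgebraic F (AlgebraicClosure k) :=
    Algebra.IsAlgebraic.tower_top (K := k) F
  have : IsAlgClosure F (AlgebraicClosure k) := ⟨inferInstance, inferInstance⟩
  let e : AlgebraicClosure F ≃ₐ[F] AlgebraicClosure k :=
    IsAlgClosure.equiv F (AlgebraicClosure F) (AlgebraicClosure k)
  let iFb : Algebra (AlgebraicClosure F) M :=
    ((algebraMap (AlgebraicClosure k) M).comp (e : _ →+* AlgebraicClosure k)).toAlgebra
  let iFM : Algebra F M :=
    ((algebraMap (AlgebraicClosure k) M).comp (algebraMap F (AlgebraicClosure k))).toAlgebra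
  have t0 : IsScalarTower F (AlgebraicClosure k) M := IsScalarTower.of_algebraMap_eq fun _ => rfl
  have he : ∀ a : AlgebraicClosure F, algebraMap (AlgebraicClosure F) M a =
      algebraMap (AlgebraicClosure k) M (e a) := fun _ => rfl
  have t1 : IsScalarTower F (AlgebraicClosure F) M := IsScalarTower.of_algebraMap_eq fun a => by
    rw [he, AlgEquiv.commutes, ← IsScalarTower.algebraMap_apply]
  have t3 : IsScalarTower k F M := IsScalarTower.of_algebraMap_eq fun a => by
    rw [IsScalarTower.algebraMap_apply F (AlgebraicClosure k) M,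
      ← IsScalarTower.algebraMap_apply k F (AlgebraicClosure k),
      ← IsScalarTower.algebraMap_apply k (AlgebraicClosure k) M]
  let iFL : Algebra F (Koe.fixF s F) := (Koe.toFixF s F hsec).toAlgebra
  have t2 : IsScalarTower F (Koe.fixF s F) M := IsScalarTower.of_algebraMap_eq fun a => by
    rw [IsScalarTower.algebraMap_apply F (AlgebraicClosure k) M]
    rfl
  have hLM : Algebra.IsAlgebraic (Koe.fixF s F) M :=
    Algebra.IsAlgebraic.tower_top (K := K) (Koe.fixF s F)
  have hL : ∀ σ : Gal(AlgebraicClosure k/k),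
      (∀ a : F, σ (algebraMap F _ a) = algebraMap F _ a) →
      ∀ x : Koe.fixF s F, s σ (algebraMap (Koe.fixF s F) M x) = algebraMap (Koe.fixF s F) M x :=
    fun σ hσ x => x.2 σ hσ
  have hs' := Koe.resS_continuous s e hL hs
  have hsec' : ∀ (σ : Gal(AlgebraicClosure F/F)) (a : AlgebraicClosure F),
      Koe.resS s e hL σ (algebraMap (AlgebraicClosure F) M a) =
        algebraMap (AlgebraicClosure F) M (σ a) := by
    intro σ a
    rw [Koe.resS_apply, he, hsec, Koe.resG_apply, e.symm_apply_apply, he]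
  have hfix : ∀ z : M, (∀ σ, Koe.resS s e hL σ z = z) →
      ∃ y : Koe.fixF s F, algebraMap (Koe.fixF s F) M y = z := by
    intro z hz
    refine ⟨⟨z, fun σ hσ => ?_⟩, rfl⟩
    obtain ⟨τ, hτ, -⟩ := Koe.resG_surj e σ hσ
    rw [← hτ, ← Koe.resS_apply s e hL τ z]
    exact hz τ
  have hLfix : ∀ (x : Koe.fixF s F) σ, Koe.resS s e hL σ (algebraMap (Koe.fixF s F) M x) =
      algebraMap (Koe.fixF s F) M x := fun x σ => (Koe.resS s e hL σ).commutes x
  have h𝒱' : ∀ V ∈ 𝒱, ∀ a : AlgebraicClosure F, algebraMap (AlgebraicClosure F) M a ∈ V :=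
    fun V hV a => h𝒱 V hV _
  -- the place over the cyclotomic field
  have hgal : IsGalois k (AlgebraicClosure k) := IsAlgClosure.isGalois k _
  have hgalF : IsGalois F (AlgebraicClosure F) := IsAlgClosure.isGalois F _
  obtain ⟨w, hwv⟩ := exists_prime_over (E := F) v
  have hwP : w = X.P := by
    by_contra hne
    apply X.away w hne
    have h1 := (Ideal.mem_of_liesOver w.asIdeal v.asIdeal ((p : 𝓞 k))).1 hv
    rwa [map_natCast] at h1
  subst hwP
  obtain ⟨ι₁, B', φ₁, hB', j₀, hj₀, hjv⟩ := exists_local_fix s hsec e he hL v X.P _ _ _ hφ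
  -- the functions `x` and `y`
  have hsA : ∀ σ, s σ (algebraMap K M A) = algebraMap K M A := fun σ => (s σ).commutes A
  have hA1 : ∀ c : k, 1 - A ≠ algebraMap k K c := by
    intro c hc
    apply hA (1 - c)
    rw [map_sub, map_one, ← hc, sub_sub_cancel]
  have hAM : algebraMap K M A ≠ 0 := (_root_.map_ne_zero _).2 hA0
  have hAM' : algebraMap K M (1 - A) ≠ 0 :=
    (_root_.map_ne_zero _).2 fun h0 => hA1 0 (by rw [h0, map_zero])
  have h3 : ∃ x y : M, (∀ σ, s σ x = x) ∧ (∀ σ, s σ y = y) ∧ x ^ p = algebraMap K M A ∧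
      y ^ p = algebraMap K M (1 - A) := by
    rcases h with ⟨x, y, hx, hy⟩ | ⟨a, b, B, ha, hb, hab, hB⟩
    · exact ⟨algebraMap K M x, algebraMap K M y, fun σ => (s σ).commutes x,
        fun σ => (s σ).commutes y, by rw [← map_pow, hx], by rw [← map_pow, hy]⟩
    · have h1A : algebraMap K M (1 - A) = 1 - algebraMap K M A := by rw [map_sub, map_one]
      have hBM : (algebraMap K M A) ^ a * (1 - algebraMap K M A) ^ b = (algebraMap K M B) ^ p := by
        rw [← map_one (algebraMap K M), ← map_sub, ← map_zpow₀, ← map_zpow₀, ← map_mul, hB,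
          map_pow]
      have hdv := fun V : ValuationSubring M =>
        divAt_int hp V hAM (by rw [← h1A]; exact hAM') ha hb hab hBM
      obtain ⟨β, hβ⟩ := hrad _ hAM fun V _ => (hdv V).1
      obtain ⟨β', hβ'⟩ := hrad _ hAM' fun V _ => by rw [h1A]; exact (hdv V).2
      obtain ⟨c, hc, x, hx, hx0, hxA⟩ := kum_root s hs hsec hsA hAM
        (Nat.one_le_iff_ne_zero.2 hp0) hβ
      obtain ⟨c', hc', y, hy, hy0, hyA⟩ := kum_root s hs hsec (fun σ => (s σ).commutes (1 - A))
        hAM' (Nat.one_le_iff_ne_zero.2 hp0) hβ'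
      have hcF : algebraMap k F c ≠ 0 := (_root_.map_ne_zero _).2 hc
      have hcF' : algebraMap k F c' ≠ 0 := (_root_.map_ne_zero _).2 hc'
      have hkFM : ∀ c : k, algebraMap (AlgebraicClosure F) M
          (algebraMap F (AlgebraicClosure F) (algebraMap k F c)) =
          algebraMap (AlgebraicClosure k) M (algebraMap k (AlgebraicClosure k) c) := by
        intro c
        rw [← IsScalarTower.algebraMap_apply F (AlgebraicClosure F) M,
          ← IsScalarTower.algebraMap_apply k F M,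
          ← IsScalarTower.algebraMap_apply k (AlgebraicClosure k) M]
      have hAt : Transcendental (AlgebraicClosure F) (algebraMap K M A) := by
        refine const_of_fixed (Koe.resS s e hL) hsec' (fun σ => hsA _) fun d hd => ?_
        exact not_const_M s hsec hA _ (hd.trans (he _))
      -- away from `p`
      have haway : ∀ w : HeightOneSpectrum (𝓞 F), w ≠ X.P →
          PV p w (algebraMap k F c) ∧ PV p w (algebraMap k F c') := by
        intro w hw
        refine pv_zero3 (Koe.resS s e hL) hs' hsec' hp X.h2 𝒱 h𝒱' hrad X.hζ w (X.away w hw)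
          (A := algebraMap K M A) (B := algebraMap K M B) (x₀ := x) (y₀ := y) hAt
          (fun σ => hsA _) (fun σ => (s _).commutes B) (fun σ => hx _) (fun σ => hy _)
          hcF hcF' ?_ ?_ ha hb hab hBM
        · rw [hkFM]
          exact hxA
        · rw [hkFM, ← h1A]
          exact hyA
      -- the prime above `p`
      have hPl : PV p X.P (algebraMap k F c) ∧ PV p X.P (algebraMap k F c') := by
        obtain ⟨Q, hQb, -⟩ := exists_plc (Koe.resS s e hL) (L := Koe.fixF s F)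
          (fun x σ => (Koe.resS s e hL σ).commutes x) ι₁ B' φ₁ hB'
        let xL : Koe.fixF s F := ⟨x, fun σ _ => hx σ⟩
        let yL : Koe.fixF s F := ⟨y, fun σ _ => hy σ⟩
        refine z0_place hp X.P Q hQb (A := algebraMap K (Koe.fixF s F) A)
          (B := algebraMap K (Koe.fixF s F) B) (x := xL) (y := yL) ?_ ?_ hcF hcF' ?_ ?_ ha hb
          hab ?_
        · intro h0
          exact hAM (congrArg (algebraMap (Koe.fixF s F) M) h0 |>.trans (map_zero _))
        · intro h0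
          apply hAM'
          have h4 := congrArg (algebraMap (Koe.fixF s F) M) h0
          rw [map_sub, map_one, map_zero] at h4
          rw [h1A]
          exact h4
        · apply (algebraMap (Koe.fixF s F) M).injective
          rw [map_mul, map_pow, ← IsScalarTower.algebraMap_apply F (Koe.fixF s F) M,
            ← IsScalarTower.algebraMap_apply k F M,
            IsScalarTower.algebraMap_apply k (AlgebraicClosure k) M]
          exact hxA
        · apply (algebraMap (Koe.fixF s F) M).injective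
          rw [map_mul, map_pow, ← IsScalarTower.algebraMap_apply F (Koe.fixF s F) M,
            ← IsScalarTower.algebraMap_apply k F M,
            IsScalarTower.algebraMap_apply k (AlgebraicClosure k) M, map_sub, map_one]
          change 1 - algebraMap K M A = _
          rw [← h1A]
          exact hyA
        · rw [← map_one (algebraMap K (Koe.fixF s F)), ← map_sub, ← map_zpow₀, ← map_zpow₀,
            ← map_mul, hB, map_pow]
      have hall : ∀ w : HeightOneSpectrum (𝓞 F),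
          PV p w (algebraMap k F c) ∧ PV p w (algebraMap k F c') := by
        intro w
        by_cases hw : w = X.P
        · rw [hw]
          exact hPl
        · exact haway w hw
      obtain ⟨d, hd⟩ := k_pow_Q hp X.h2 hk hm hc fun w => (hall w).1
      obtain ⟨d', hd'⟩ := k_pow_Q hp X.h2 hk hm hc' fun w => (hall w).2
      refine ⟨algebraMap (AlgebraicClosure k) M (algebraMap k (AlgebraicClosure k) d) * x,
        algebraMap (AlgebraicClosure k) M (algebraMap k (AlgebraicClosure k) d') * y,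
        fun σ => ?_, fun σ => ?_, ?_, ?_⟩
      · rw [map_mul, hsec, AlgEquiv.commutes, hx]
      · rw [map_mul, hsec, AlgEquiv.commutes, hy]
      · rw [mul_pow, ← map_pow, ← map_pow, hd, ← hxA]
      · rw [mul_pow, ← map_pow, ← map_pow, hd', ← hyA]
  obtain ⟨x, y, hsx, hsy, hxA, hyA⟩ := h3
  have hxy : x ^ p + y ^ p = 1 := by rw [hxA, hyA, map_sub, map_one]; ring
  have hxc : ∀ c : AlgebraicClosure k, x ≠ algebraMap _ M c := by
    intro c hc
    apply not_const_M s hsec hA (c ^ p)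
    rw [← hxA, hc, map_pow]
  have hyc : ∀ c : AlgebraicClosure k, y ≠ algebraMap _ M c := by
    intro c hc
    apply not_const_M s hsec hA1 (c ^ p)
    rw [← hyA, hc, map_pow]
  have hx0 : x ≠ 0 := by
    rintro rfl
    rw [zero_pow hp0] at hxA
    exact hAM hxA.symm
  have hy0 : y ≠ 0 := by
    rintro rfl
    rw [zero_pow hp0] at hyA
    exact hAM' hyA.symm
  let xL : Koe.fixF s F := ⟨x, fun σ _ => hsx σ⟩
  let yL : Koe.fixF s F := ⟨y, fun σ _ => hsy σ⟩
  have hcst : ∀ (z : Koe.fixF s F), (∀ c : AlgebraicClosure k, (z : M) ≠ algebraMap _ M c) →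
      ∀ c : F, z ≠ algebraMap F (Koe.fixF s F) c := by
    intro z hz c hc
    apply hz (algebraMap F (AlgebraicClosure k) c)
    have h4 := congrArg (algebraMap (Koe.fixF s F) M) hc
    rw [← IsScalarTower.algebraMap_apply F (Koe.fixF s F) M] at h4
    rw [← IsScalarTower.algebraMap_apply F (AlgebraicClosure k) M]
    exact h4
  have hyxc : ∀ c : AlgebraicClosure k, y / x ≠ algebraMap _ M c := by
    intro c hc
    have h1 : x ^ p * (1 + algebraMap (AlgebraicClosure k) M c ^ p) = 1 := by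
      rw [← hc, div_pow]
      have := pow_ne_zero p hx0
      field_simp
      exact hxy
    apply not_const_M s hsec hA (1 + c ^ p)⁻¹
    rw [← hxA, map_inv₀, map_add, map_one, map_pow]
    exact eq_inv_of_mul_eq_one_left h1
  obtain ⟨D, hD, hDW⟩ := exists_dataP (L := Koe.fixF s F) hp X.h2 X.hζ X.away 𝒱 h𝒱' hrad
    (Koe.resS s e hL) hs' hsec' hLfix hfix ι₁ B' φ₁ hB'
  -- the values at `P`
  have hval : ∀ (z : M) (hz : ∀ σ, s σ z = z) (B : K), z ^ p = algebraMap K M B →
      ∀ (h : algebraMap K M B ∈ A') (u : v.adicCompletion k), φ ⟨_, h⟩ = algebraMap _ _ u →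
      Valued.v u = (1 : ℤᵐ⁰) → ∃ a : X.P.adicCompletion F,
        D.pl.Has (⟨z, fun σ _ => hz σ⟩ : Koe.fixF s F) a ∧ Valued.v a = (1 : ℤᵐ⁰) := by
    intro z hz B hzB h4 u hu hv1
    have h5 := hjv (algebraMap K M B) (fun σ => (s σ).commutes B)
    have h6 : algebraMap K M B ∈ B' := h5.1.2 h4
    obtain ⟨u', hu', hu''⟩ := h5.2 h4 h6
    have h7 : u = u' := by
      apply (algebraMap (v.adicCompletion k) (AlgebraicClosure (v.adicCompletion k))).injective
      rw [← hu, hu']
    subst h7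
    have h8 : D.pl.Has ((⟨z, fun σ _ => hz σ⟩ : Koe.fixF s F) ^ p) (j₀ u) := by
      rw [hD]
      have h9 : algebraMap (Koe.fixF s F) M ((⟨z, fun σ _ => hz σ⟩ : Koe.fixF s F) ^ p) =
          algebraMap K M B := by
        rw [map_pow, ← hzB]
        rfl
      refine ⟨by rw [h9]; exact h6, ?_⟩
      rw [← hu'']
      congr 1
      exact Subtype.ext h9
    obtain ⟨a, ha, ha'⟩ := Plc.pow_has hp0 h8
    refine ⟨a, ha, ?_⟩
    have h10 := eq_one_of j₀ hj₀ hv1
    rw [← ha', map_pow] at h10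
    exact (pow_eq_one_iff.1 h10).resolve_right hp0
  have hmA1 : algebraMap K M (1 - A) ∈ A' := by
    rw [map_sub, map_one]
    exact sub_mem (one_mem _) hmA
  have hu₀' : φ ⟨_, hmA1⟩ = algebraMap _ _ (1 - u₀) := by
    rw [map_sub (algebraMap (v.adicCompletion k) _), map_one, ← hu₀, ← map_one φ, ← map_sub φ]
    congr 1
    apply Subtype.ext
    change algebraMap K M (1 - A) = 1 - algebraMap K M A
    rw [map_sub, map_one]
  obtain ⟨a, ha, hva⟩ := hval x hsx A hxA hmA u₀ hu₀ hu₁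
  obtain ⟨b, hb, hvb⟩ := hval y hsy (1 - A) hyA hmA1 _ hu₀' hu₂
  -- the values over `r`
  have hR : Rc r F xL⁻¹ 0 ∨ ∃ n n' : ℕ, n < r ∧ n' < r ∧
      ∀ w : HeightOneSpectrum (𝓞 F), (r : 𝓞 F) ∈ w.asIdeal →
      ∃ Q : Plc (Koe.fixF s F) (w.adicCompletion F),
        (∀ a : F, Q.Has (algebraMap F (Koe.fixF s F) a) (algebraMap F (w.adicCompletion F) a)) ∧
        (∃ ρ : w.adicCompletion F, Q.Has xL ρ ∧ Valued.v (ρ - n) < (1 : ℤᵐ⁰)) ∧
        ∃ ρ : w.adicCompletion F, Q.Has yL ρ ∧ Valued.v (ρ - n') < (1 : ℤᵐ⁰) := by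
    -- the place over `w`
    have hpl : ∀ w : HeightOneSpectrum (𝓞 F), (r : 𝓞 F) ∈ w.asIdeal →
        ∃ (Q : Plc (Koe.fixF s F) (w.adicCompletion F))
          (j : v'.adicCompletion k →+* w.adicCompletion F),
          (∀ y, Valued.v (j y) < (1 : ℤᵐ⁰) ↔ Valued.v y < (1 : ℤᵐ⁰)) ∧
          (∀ a : F, Q.Has (algebraMap F (Koe.fixF s F) a)
            (algebraMap F (w.adicCompletion F) a)) ∧
          ∀ (z : M) (hz : ∀ σ, s σ z = z) (h : z ∈ A'') (u : v'.adicCompletion k),
            φ' ⟨z, h⟩ = algebraMap _ _ u →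
            Q.Has (⟨z, fun σ _ => hz σ⟩ : Koe.fixF s F) (j u) := by
      intro w hrw
      have hlo : w.asIdeal.LiesOver v'.asIdeal := by
        have h1 : (r : 𝓞 k) ∈ (w.under (𝓞 k)).asIdeal := by
          change (r : 𝓞 k) ∈ w.asIdeal.comap (algebraMap (𝓞 k) (𝓞 F))
          rw [Ideal.mem_comap, map_natCast]
          exact hrw
        rw [unique_Q hk hrp hv' h1]
        exact ⟨rfl⟩
      obtain ⟨ι₂, B₂, φ₂, hB₂, j, hj, hjv₂⟩ := exists_local_fix s hsec e he hL v' w _ _ _ hφ'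
      obtain ⟨Q, hQb, hQ⟩ := exists_plc (Koe.resS s e hL) (L := Koe.fixF s F) hLfix ι₂ B₂ φ₂ hB₂
      refine ⟨Q, j, hj, hQb, fun z hz h u hu => ?_⟩
      obtain ⟨h5, h6⟩ := hjv₂ z hz
      have h7 : z ∈ B₂ := h5.2 h
      obtain ⟨u', hu', hu''⟩ := h6 h h7
      have h8 : u = u' := by
        apply (algebraMap (v'.adicCompletion k)
          (AlgebraicClosure (v'.adicCompletion k))).injective
        rw [← hu, hu']
      subst h8
      rw [hQ]
      exact ⟨h7, hu''⟩
    rcases value_r hk s hrp hv' ι' A'' φ' hφ' hp0 hsx hsy hxy hx0 with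
      ⟨h4, u, hu, hvu⟩ | ⟨h4, h5, n, n', u, u', hn, hn', hu, hvu, hu', hvu'⟩
    · left
      intro w hrw
      obtain ⟨Q, j, hj, hQb, hQ⟩ := hpl w hrw
      refine ⟨Q, hQb, j u, ?_, ?_⟩
      · exact hQ x⁻¹ (fun σ => by rw [map_inv₀, hsx]) h4 u hu
      · rw [Int.cast_zero, sub_zero]
        exact (hj u).2 hvu
    · right
      refine ⟨n, n', hn, hn', fun w hrw => ?_⟩
      obtain ⟨Q, j, hj, hQb, hQ⟩ := hpl w hrw
      refine ⟨Q, hQb, ⟨j u, hQ x hsx h4 u hu, ?_⟩, j u', hQ y hsy h5 u' hu', ?_⟩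
      · rw [← map_natCast j n, ← map_sub]
        exact (hj _).2 hvu
      · rw [← map_natCast j n', ← map_sub]
        exact (hj _).2 hvu'
  obtain ⟨r₀, ρ, hg, hρ, h1, h2, h3⟩ := select_r X hr hrne D (x := xL) (y := yL)
    (Subtype.ext hxy) (hcst xL hxc) (hcst yL hyc) (hcst (yL / xL) hyxc)
    ((hDW xL).2 fun h0 => hx0 (congrArg (algebraMap (Koe.fixF s F) M) h0 |>.trans (map_zero _)))
    ((hDW yL).2 fun h0 => hy0 (congrArg (algebraMap (Koe.fixF s F) M) h0 |>.trans (map_zero _)))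
    ha hb hva hvb hR
  exact fc_F X hrp hrne hw D hg hρ h1 h2 h3

/-- a prime above a rational prime -/
theorem exists_above {k : Type*} [Field k] [NumberField k] {r : ℕ} (hr : r.Prime) :
    ∃ v : HeightOneSpectrum (𝓞 k), (r : 𝓞 k) ∈ v.asIdeal := by
  have h0 : (r : 𝓞 k) ≠ 0 := Nat.cast_ne_zero.2 hr.ne_zero
  have h1 : Ideal.span {(r : 𝓞 k)} ≠ ⊤ := by
    rw [Ne, Ideal.span_singleton_eq_top]
    intro h2
    have h3 : IsUnit (r : ℤ) := by
      have h4 : IsIntegral ℤ ((r : ℚ)⁻¹) := by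
        obtain ⟨u, hu⟩ := h2
        have h5 : IsIntegral ℤ ((((u⁻¹ : (𝓞 k)ˣ) : 𝓞 k) : k)) := RingOfIntegers.isIntegral_coe _
        have h6 : ((((u⁻¹ : (𝓞 k)ˣ) : 𝓞 k) : k)) = algebraMap ℚ k ((r : ℚ)⁻¹) := by
          rw [map_inv₀, map_natCast]
          apply eq_inv_of_mul_eq_one_left
          have h7 : ((((u⁻¹ : (𝓞 k)ˣ) : 𝓞 k) * (u : 𝓞 k) : 𝓞 k) : k) = 1 := by
            rw [Units.inv_mul]
            rfl
          rw [hu] at h7
          push_cast at h7
          exact h7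
        rw [h6] at h5
        exact (isIntegral_algebraMap_iff (algebraMap ℚ k).injective).1 h5
      obtain ⟨n, hn⟩ := IsIntegrallyClosed.isIntegral_iff.1 h4
      refine IsUnit.of_mul_eq_one n ?_
      have h8 : ((r : ℤ) : ℚ) * ((n : ℤ) : ℚ) = 1 := by
        have h9 : ((n : ℤ) : ℚ) = (r : ℚ)⁻¹ := hn
        rw [h9, Int.cast_natCast, mul_inv_cancel₀ (Nat.cast_ne_zero.2 hr.ne_zero)]
      exact_mod_cast h8
    rw [Int.isUnit_iff] at h3
    have h4 := hr.two_le
    omega
  obtain ⟨I, hI, hle⟩ := Ideal.exists_le_maximal _ h1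
  have hne : I ≠ ⊥ := by
    rintro rfl
    apply h0
    have h2 : (r : 𝓞 k) ∈ (⊥ : Ideal (𝓞 k)) := hle (Ideal.mem_span_singleton_self _)
    exact (Ideal.mem_bot).1 h2
  exact ⟨⟨I, hI.isPrime, hne⟩, hle (Ideal.mem_span_singleton_self _)⟩

/-- an embedding -/
theorem exists_emb {k : Type*} [Field k] [NumberField k] (v : HeightOneSpectrum (𝓞 k)) :
    Nonempty (AlgebraicClosure k →ₐ[k] AlgebraicClosure (v.adicCompletion k)) := by
  have h1 : FaithfulSMul k (AlgebraicClosure (v.adicCompletion k)) := by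
    rw [faithfulSMul_iff_algebraMap_injective]
    exact (algebraMap k (AlgebraicClosure (v.adicCompletion k))).injective
  exact ⟨IsAlgClosed.lift⟩

/-- **The first case for sections.** -/
theorem fc_k {p : ℕ} (hp : p.Prime) (h2 : p ≠ 2) {r : ℕ} (hr : r = 2 ∨ (r = 3 ∧ p ≠ 3))
    (hw : ¬ r ^ (p - 1) ≡ 1 [MOD p ^ 2])
    {k : Type*} [Field k] [NumberField k] [Algebra k (CyclotomicField p ℚ)]
    (hk : Module.finrank ℚ k = 1)
    {K : Type*} [Field K] [Algebra k K]
    {M : Type*} [Field M] [Algebra K M] [Algebra.IsAlgebraic K M]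
    [Algebra (AlgebraicClosure k) M] [Algebra k M]
    [IsScalarTower k K M] [IsScalarTower k (AlgebraicClosure k) M]
    (𝒱 : Set (ValuationSubring M))
    (h𝒱 : ∀ V ∈ 𝒱, ∀ a : AlgebraicClosure k, algebraMap (AlgebraicClosure k) M a ∈ V)
    (hrad : ∀ ρ : M, ρ ≠ 0 → (∀ V ∈ 𝒱, DivAt p ρ V) → ∃ β : M, β ^ p = ρ)
    (A : K) (hA : ∀ c : k, A ≠ algebraMap k K c)
    (h : (∃ x y : K, x ^ p = A ∧ y ^ p = 1 - A) ∨
      ∃ (a b : ℤ) (B : K), ¬ (p : ℤ) ∣ a ∧
        ¬ (p : ℤ) ∣ b ∧ ¬ (p : ℤ) ∣ a + b ∧ A ^ a * (1 - A) ^ b = B ^ p)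
    (s : Gal(AlgebraicClosure k/k) →* Gal(M/K)) (hs : Continuous s)
    (hsec : ∀ σ a, s σ (algebraMap (AlgebraicClosure k) M a) =
      algebraMap (AlgebraicClosure k) M (σ a))
    (v : HeightOneSpectrum (𝓞 k)) (hv : (p : 𝓞 k) ∈ v.asIdeal)
    (ι : AlgebraicClosure k →ₐ[k] AlgebraicClosure (v.adicCompletion k))
    (A' : ValuationSubring M) (φ : A' →+* AlgebraicClosure (v.adicCompletion k))
    (hφ : IsPlaceOf s (v.adicCompletion k)
      (ι : _ →+* AlgebraicClosure (v.adicCompletion k)) A' φ)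
    (v' : HeightOneSpectrum (𝓞 k)) (hv' : (r : 𝓞 k) ∈ v'.asIdeal)
    (ι' : AlgebraicClosure k →ₐ[k] AlgebraicClosure (v'.adicCompletion k))
    (A'' : ValuationSubring M) (φ' : A'' →+* AlgebraicClosure (v'.adicCompletion k))
    (hφ' : IsPlaceOf s (v'.adicCompletion k)
      (ι' : _ →+* AlgebraicClosure (v'.adicCompletion k)) A'' φ') :
    ∃ B : K, (B = A ∨ B = 1 - A ∨ B = A⁻¹) ∧ ∃ (h : algebraMap K M B ∈ A')
      (u : v.adicCompletion k), φ ⟨_, h⟩ = algebraMap _ _ u ∧ Valued.v u < (1 : ℤᵐ⁰) := by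
  have : Fact p.Prime := ⟨hp⟩
  have : NeZero p := ⟨hp.ne_zero⟩
  have hcyc := cycl p
  obtain ⟨X⟩ := exists_cyc p h2 (CyclotomicField p ℚ)
  have hdeg : Module.finrank ℚ (CyclotomicField p ℚ) = p - 1 := by
    rw [IsCyclotomicExtension.Rat.finrank p, Nat.totient_prime hp]
  have hm : ¬ p ∣ Module.finrank k (CyclotomicField p ℚ) := by
    intro hd
    have h4 : Module.finrank ℚ k * Module.finrank k (CyclotomicField p ℚ) = p - 1 := by
      rw [Module.finrank_mul_finrank, hdeg]
    have h5 : p ∣ p - 1 := h4 ▸ Dvd.dvd.mul_left hd _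
    have h6 := hp.two_le
    exact absurd (Nat.le_of_dvd (by omega) h5) (by omega)
  let e : CyclotomicField p ℚ →ₐ[k] AlgebraicClosure k :=
    have : Algebra.IsAlgebraic k (CyclotomicField p ℚ) := by
      have : FiniteDimensional k (CyclotomicField p ℚ) := FiniteDimensional.right ℚ k _
      infer_instance
    IsAlgClosed.lift
  let iF : Algebra (CyclotomicField p ℚ) (AlgebraicClosure k) := (e : _ →+* _).toAlgebra
  have t1 : IsScalarTower k (CyclotomicField p ℚ) (AlgebraicClosure k) :=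
    IsScalarTower.of_algebraMap_eq fun a => (e.commutes a).symm
  exact fc_gen X hr hw hk hm 𝒱 h𝒱 hrad A hA h s hs hsec v hv ι A' φ hφ v' hv' ι' A'' φ' hφ'

end Pool.Agent.Lib.MP_2f3286_ag.Fc
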